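import Pool.Agent.Helper58.FS.Defs

/-! SH1, SH2 of the project of helper58 on MP_b529ab_nt: Shapiro's lemma for everywhere locally
trivial classes. -/

set_option autoImplicit false

namespace Pool.Agent.Helper69.FS

open Pool.Agent.Helper58.FS

theorem relIndex_ne_zero_of_hom {A A' : Type*} [AddCommGroup A] [AddCommGroup A'] (φ : A →+ A')
    {Z B : AddSubgroup A} {Z' B' : AddSubgroup A'} (hZ : ∀ z ∈ Z, φ z ∈ Z')
    (hB : ∀ z ∈ Z, φ z ∈ B' → z ∈ B) (h : B'.relIndex Z' ≠ 0) : B.relIndex Z ≠ 0 := by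
  intro h0
  apply h
  have h1 : (B'.comap φ ⊓ Z).relIndex Z = 0 := by
    refine AddSubgroup.relIndex_eq_zero_of_le_left (fun z hz => ?_) h0
    exact hB z hz.2 hz.1
  rw [AddSubgroup.inf_relIndex_right, AddSubgroup.relIndex_comap] at h1
  refine AddSubgroup.relIndex_eq_zero_of_le_right ?_ h1
  rintro _ ⟨z, hz, rfl⟩
  exact hZ z hz

section

variable {G : Type*} [Group G] [TopologicalSpace G] {T : Type*} [AddCommGroup T]
  {H : Subgroup G} {a : G → T →+ T} {J : Type*} {π : G → J → J}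

theorem pi_inv (h1 : π 1 = id) (hm : ∀ g ∈ H, ∀ h ∈ H, π (g * h) = π g ∘ π h) {g : G} (hg : g ∈ H)
    (j : J) : π g⁻¹ (π g j) = j := by
  have := hm g⁻¹ (H.inv_mem hg) g hg
  rw [inv_mul_cancel, h1] at this
  exact (congrFun this j).symm

theorem pi_inv' (h1 : π 1 = id) (hm : ∀ g ∈ H, ∀ h ∈ H, π (g * h) = π g ∘ π h) {g : G} (hg : g ∈ H)
    (j : J) : π g (π g⁻¹ j) = j := by
  have := hm g hg g⁻¹ (H.inv_mem hg)
  rw [mul_inv_cancel, h1] at this
  exact (congrFun this j).symm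

/-- Orbitwise triviality. `S j` is the representative of the orbit of `j`. -/
theorem orbitwise (ha : Act H a) (h1 : π 1 = id)
    (hm : ∀ g ∈ H, ∀ h ∈ H, π (g * h) = π g ∘ π h) {D : Subgroup G} (hD : D ≤ H)
    {c : G → J → T} (hc : ∀ g ∈ D, ∀ h ∈ D, c (g * h) = c g + indAct a π g (c h))
    (S : J → J) (d : J → G) (hd : ∀ j, d j ∈ D) (hdS : ∀ j, π (d j) (S j) = j)
    (hS : ∀ g ∈ D, ∀ j, S (π g j) = S j) (t : J → T)
    (ht : ∀ j, ∀ g ∈ D, π g (S j) = S j → c g (S j) = a g (t (S j)) - t (S j)) :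
    ∃ m : J → T, ∀ g ∈ D, c g = indAct a π g m - m := by
  refine ⟨fun j => a (d j) (t (S j)) - c (d j) j, fun g hg => ?_⟩
  funext j
  have hgi := D.inv_mem hg
  -- `i = π g⁻¹ j`
  obtain ⟨i, hi⟩ : ∃ i, π g⁻¹ j = i := ⟨_, rfl⟩
  have hSi : S i = S j := by rw [← hi]; exact hS _ hgi j
  have hgi' : π g i = j := by rw [← hi]; exact pi_inv' h1 hm (hD hg) j
  have e1 : c (g * d i) j = c g j + a g (c (d i) i) := by
    have := congrFun (hc g hg (d i) (hd i)) j
    rw [this, Pi.add_apply]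
    change c g j + a g (c (d i) (π g⁻¹ j)) = _
    rw [hi]
  have hs : (d j)⁻¹ * (g * d i) ∈ D := D.mul_mem (D.inv_mem (hd j)) (D.mul_mem hg (hd i))
  have hdj : π (d j)⁻¹ j = S j := by
    have := pi_inv h1 hm (hD (hd j)) (S j)
    rwa [hdS j] at this
  have e2 : c (g * d i) j = c (d j) j + a (d j) (c ((d j)⁻¹ * (g * d i)) (S j)) := by
    have := congrFun (hc (d j) (hd j) _ hs) j
    rw [mul_inv_cancel_left] at this
    rw [this, Pi.add_apply]
    change c (d j) j + a (d j) (c ((d j)⁻¹ * (g * d i)) (π (d j)⁻¹ j)) = _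
    rw [hdj]
  have hfix : π ((d j)⁻¹ * (g * d i)) (S j) = S j := by
    rw [hm _ (hD (D.inv_mem (hd j))) _ (hD (D.mul_mem hg (hd i))), hm _ (hD hg) _ (hD (hd i))]
    simp only [Function.comp_apply]
    rw [← hSi, hdS i, hgi', hdj, hSi]
  have e3 := ht j _ hs hfix
  have e4 : a (d j) (a ((d j)⁻¹ * (g * d i)) (t (S j))) = a g (a (d i) (t (S j))) := by
    rw [ha.mul _ (hD (D.inv_mem (hd j))) _ (hD (D.mul_mem hg (hd i))),
      ha.mul _ (hD hg) _ (hD (hd i))]
    simp only [AddMonoidHom.comp_apply]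
    have := ha.mul _ (hD (hd j)) _ (hD (D.inv_mem (hd j)))
    rw [mul_inv_cancel, ha.one] at this
    exact (DFunLike.congr_fun this _).symm
  have e5 : c g j = c (d j) j + (a g (a (d i) (t (S j))) - a (d j) (t (S j)))
      - a g (c (d i) i) := by
    rw [← e4, ← map_sub, ← e3, ← e2, e1]
    abel
  rw [e5, Pi.sub_apply]
  change _ = a g (a (d (π g⁻¹ j)) (t (S (π g⁻¹ j))) - c (d (π g⁻¹ j)) (π g⁻¹ j)) - _
  rw [hi, hSi, map_sub]
  abel

end

section

variable {G : Type*} [Group G] [TopologicalSpace G] (X : Type*) [MulAction G X]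
  {T : Type*} [AddCommGroup T]

theorem sh1 {H : Subgroup G} {a : G → T →+ T} (ha : Act H a) [Finite T] {J : Type*} [Finite J]
    (π : G → J → J) (h1 : π 1 = id) (hm : ∀ g ∈ H, ∀ h ∈ H, π (g * h) = π g ∘ π h)
    (_hc : ∃ U : Subgroup G, IsOpen (U : Set G) ∧ ∀ u ∈ U ⊓ H, π u = id) (j₀ : J)
    (htr : ∀ j, ∃ h ∈ H, π h j₀ = j) {H' : Subgroup G}
    (hH' : ∀ g, g ∈ H' ↔ g ∈ H ∧ π g j₀ = j₀) (h : FinSh X a H') :
    FinSh X (indAct a π) H := by
  have hle : H' ≤ H := fun g hg => ((hH' g).1 hg).1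
  have hinv : ∀ g ∈ H', π g⁻¹ j₀ = j₀ := fun g hg => ((hH' _).1 (H'.inv_mem hg)).2
  let φ : (G → J → T) →+ (G → T) :=
    { toFun := fun c g => c g j₀
      map_zero' := rfl
      map_add' := fun _ _ => rfl }
  refine relIndex_ne_zero_of_hom φ ?_ ?_ h
  · rintro c ⟨hc1, ⟨U, hU, hc2⟩, hc3⟩
    refine ⟨fun g hg h hh => ?_, ⟨U, hU, fun g hg u hu => ?_⟩, fun x => ?_⟩
    · have := congrFun (hc1 g (hle hg) h (hle hh)) j₀
      change c (g * h) j₀ = c g j₀ + a g (c h j₀)
      rw [this, Pi.add_apply]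
      change c g j₀ + a g (c h (π g⁻¹ j₀)) = _
      rw [hinv g hg]
    · change c (g * u) j₀ = c g j₀
      rw [hc2 g (hle hg) u ⟨hu.1, hle hu.2⟩]
    · obtain ⟨m, hm'⟩ := hc3 x
      refine ⟨m j₀, fun g hg hgx => ?_⟩
      change c g j₀ = _
      rw [hm' g (hle hg) hgx, Pi.sub_apply]
      change a g (m (π g⁻¹ j₀)) - _ = _
      rw [hinv g hg]
  · rintro c ⟨hc1, -, -⟩ ⟨t, ht⟩
    choose d hd hdj using htr
    refine orbitwise ha h1 hm le_rfl hc1 (fun _ => j₀) d hd hdj (fun _ _ _ => rfl) (fun _ => t) ?_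
    intro _ g hg hgj
    exact ht g ((hH' g).2 ⟨hg, hgj⟩)

theorem sh2 [IsTopologicalGroup G] {H : Subgroup G}
    {a : G → T →+ T} (ha : Act H a) [Finite T] {J : Type*} [Finite J]
    (π : G → J → J) (h1 : π 1 = id) (hm : ∀ g ∈ H, ∀ h ∈ H, π (g * h) = π g ∘ π h)
    (hc : ∃ U : Subgroup G, IsOpen (U : Set G) ∧ ∀ u ∈ U ⊓ H, π u = id) (j₀ : J)
    (htr : ∀ j, ∃ h ∈ H, π h j₀ = j) {H' : Subgroup G}
    (hH' : ∀ g, g ∈ H' ↔ g ∈ H ∧ π g j₀ = j₀) (h : FinSh X (indAct a π) H) :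
    FinSh X a H' := by
  classical
  have hle : H' ≤ H := fun g hg => ((hH' g).1 hg).1
  have hinv : ∀ g ∈ H', π g⁻¹ j₀ = j₀ := fun g hg => ((hH' _).1 (H'.inv_mem hg)).2
  -- a transversal with value `1` at `j₀`
  obtain ⟨t, htH, htj, ht0⟩ : ∃ t : J → G, (∀ j, t j ∈ H) ∧ (∀ j, π (t j) j₀ = j) ∧ t j₀ = 1 := by
    choose d hd hdj using htr
    refine ⟨Function.update d j₀ 1, fun j => ?_, fun j => ?_, Function.update_self ..⟩
    · by_cases hj : j = j₀
      · rw [hj, Function.update_self]; exact H.one_mem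
      · rw [Function.update_of_ne hj]; exact hd j
    · by_cases hj : j = j₀
      · rw [hj, Function.update_self, h1]; rfl
      · rw [Function.update_of_ne hj]; exact hdj j
  have htinv : ∀ j, π (t j)⁻¹ j = j₀ := fun j => by
    have := pi_inv h1 hm (htH j) j₀
    rwa [htj j] at this
  -- the element of `H'` attached to `g` and `j`
  have hsH : ∀ g ∈ H, ∀ i j, π g i = j → (t j)⁻¹ * g * t i ∈ H' := by
    intro g hg i j hij
    rw [hH']
    refine ⟨H.mul_mem (H.mul_mem (H.inv_mem (htH j)) hg) (htH i), ?_⟩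
    rw [hm _ (H.mul_mem (H.inv_mem (htH j)) hg) _ (htH i), hm _ (H.inv_mem (htH j)) _ hg]
    simp only [Function.comp_apply]
    rw [htj i, hij, htinv j]
  have ainv : ∀ g ∈ H, ∀ x, a g (a g⁻¹ x) = x := by
    intro g hg x
    have := ha.mul _ hg _ (H.inv_mem hg)
    rw [mul_inv_cancel, ha.one] at this
    exact (DFunLike.congr_fun this x).symm
  let ψ : (G → T) →+ (G → J → T) :=
    { toFun := fun c g j => a (t j) (c ((t j)⁻¹ * g * t (π g⁻¹ j)))
      map_zero' := by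
        funext g j
        simp
      map_add' := fun c d => by
        funext g j
        simp }
  have hψ : ∀ c g j i, π g⁻¹ j = i → ψ c g j = a (t j) (c ((t j)⁻¹ * g * t i)) := by
    intro c g j i hi
    change a (t j) (c ((t j)⁻¹ * g * t (π g⁻¹ j))) = _
    rw [hi]
  refine relIndex_ne_zero_of_hom ψ ?_ ?_ h
  · rintro c ⟨hc1, ⟨U, hU, hc2⟩, hc3⟩
    have hcoc : ∀ g ∈ H, ∀ h ∈ H, ψ c (g * h) = ψ c g + indAct a π g (ψ c h) := by
      intro g hg h hh
      funext j
      obtain ⟨i, hi⟩ : ∃ i, π g⁻¹ j = i := ⟨_, rfl⟩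
      obtain ⟨l, hl⟩ : ∃ l, π h⁻¹ i = l := ⟨_, rfl⟩
      have hgi : π g i = j := by rw [← hi]; exact pi_inv' h1 hm hg j
      have hhl : π h l = i := by rw [← hl]; exact pi_inv' h1 hm hh i
      have hghl : π (g * h)⁻¹ j = l := by
        rw [mul_inv_rev, hm _ (H.inv_mem hh) _ (H.inv_mem hg), Function.comp_apply, hi, hl]
      rw [hψ _ _ _ _ hghl, Pi.add_apply, hψ _ _ _ _ hi]
      change _ = _ + a g (ψ c h (π g⁻¹ j))
      rw [hi, hψ _ _ _ _ hl]
      have e1 : (t j)⁻¹ * (g * h) * t l = ((t j)⁻¹ * g * t i) * ((t i)⁻¹ * h * t l) := by group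
      rw [e1, hc1 _ (hsH g hg i j hgi) _ (hsH h hh l i hhl), map_add]
      congr 1
      rw [ha.mul _ (H.mul_mem (H.inv_mem (htH j)) hg) _ (htH i),
        ha.mul _ (H.inv_mem (htH j)) _ hg]
      simp only [AddMonoidHom.comp_apply]
      rw [ainv _ (htH j)]
    refine ⟨hcoc, ?_, fun x => ?_⟩
    · -- continuity
      obtain ⟨V, hV, hVπ⟩ := hc
      refine ⟨V ⊓ ⨅ i : J, U.comap (MulAut.conj (t i)⁻¹).toMonoidHom, ?_, ?_⟩
      · have : ((V ⊓ ⨅ i : J, U.comap (MulAut.conj (t i)⁻¹).toMonoidHom : Subgroup G) : Set G) =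
            (V : Set G) ∩ ⋂ i : J, (fun g => (t i)⁻¹ * g * (t i)) ⁻¹' (U : Set G) := by
          ext g
          simp [Subgroup.mem_iInf]
        rw [this]
        refine hV.inter (isOpen_iInter_of_finite fun i => hU.preimage ?_)
        fun_prop
      · intro g hg u hu
        have huH : u ∈ H := hu.2
        have hup : π u = id := hVπ u ⟨hu.1.1, huH⟩
        have hui : π u⁻¹ = id := hVπ u⁻¹ ⟨V.inv_mem hu.1.1, H.inv_mem huH⟩
        have huU : ∀ i, (t i)⁻¹ * u * t i ∈ U := by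
          intro i
          have := (Subgroup.mem_iInf.1 hu.1.2) i
          simpa using this
        funext j
        obtain ⟨i, hi⟩ : ∃ i, π g⁻¹ j = i := ⟨_, rfl⟩
        have hgi : π g i = j := by rw [← hi]; exact pi_inv' h1 hm hg j
        have hgui : π (g * u)⁻¹ j = i := by
          rw [mul_inv_rev, hm _ (H.inv_mem huH) _ (H.inv_mem hg), Function.comp_apply, hi, hui]
          rfl
        rw [hψ _ _ _ _ hgui, hψ _ _ _ _ hi]
        have e1 : (t j)⁻¹ * (g * u) * t i = ((t j)⁻¹ * g * t i) * ((t i)⁻¹ * u * t i) := by group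
        rw [e1, hc2 _ (hsH g hg i j hgi) _ ⟨huU i, hsH u huH i i (by rw [hup]; rfl)⟩]
    · -- local triviality
      let D : Subgroup G := H ⊓ MulAction.stabilizer G x
      have hDH : D ≤ H := inf_le_left
      have hDx : ∀ g, g ∈ D ↔ g ∈ H ∧ g • x = x := fun g => Iff.rfl
      let s : Setoid J :=
        { r := fun i j => ∃ g ∈ D, π g i = j
          iseqv :=
            { refl := fun i => ⟨1, D.one_mem, by rw [h1]; rfl⟩
              symm := by
                rintro i j ⟨g, hg, hij⟩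
                exact ⟨g⁻¹, D.inv_mem hg, by rw [← hij]; exact pi_inv h1 hm (hDH hg) i⟩
              trans := by
                rintro i j l ⟨g, hg, hij⟩ ⟨h, hh, hjl⟩
                exact ⟨h * g, D.mul_mem hh hg, by
                  rw [hm _ (hDH hh) _ (hDH hg), Function.comp_apply, hij, hjl]⟩ } }
      let S : J → J := fun j => (Quotient.mk s j).out
      have hSj : ∀ j, ∃ g ∈ D, π g (S j) = j := fun j => Quotient.exact (Quotient.out_eq (Quotient.mk s j))
      have hS : ∀ g ∈ D, ∀ j, S (π g j) = S j := by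
        intro g hg j
        have : Quotient.mk s (π g j) = Quotient.mk s j :=
          Quotient.sound (s.symm ⟨g, hg, rfl⟩)
        change (Quotient.mk s (π g j)).out = (Quotient.mk s j).out
        rw [this]
      choose d hd hdS using hSj
      choose τ hτ using fun j => hc3 ((t j)⁻¹ • x)
      obtain ⟨m, hm'⟩ := orbitwise ha h1 hm hDH
        (fun g hg h hh => hcoc g (hDH hg) h (hDH hh)) S d hd hdS hS (fun j => a (t j) (τ j)) (by
          intro j g hg hgj
          obtain ⟨r, hr⟩ : ∃ r, S j = r := ⟨_, rfl⟩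
          rw [hr] at hgj ⊢
          have hgr : π g⁻¹ r = r := by
            have := pi_inv h1 hm (hDH hg) r
            rwa [hgj] at this
          rw [hψ _ _ _ _ hgr]
          have hs := hsH g (hDH hg) r r hgj
          rw [hτ r _ hs (by
            rw [smul_smul, mul_assoc, mul_assoc, mul_inv_cancel, mul_one, mul_smul, hg.2]),
            map_sub, ha.mul _ (H.mul_mem (H.inv_mem (htH r)) (hDH hg)) _ (htH r),
            ha.mul _ (H.inv_mem (htH r)) _ (hDH hg)]
          simp only [AddMonoidHom.comp_apply]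
          rw [ainv _ (htH r)])
      exact ⟨m, fun g hg hgx => hm' g ⟨hg, hgx⟩⟩
  · rintro c - ⟨m, hm'⟩
    refine ⟨m j₀, fun g hg => ?_⟩
    have := congrFun (hm' g (hle hg)) j₀
    rw [hψ _ _ _ _ (hinv g hg), Pi.sub_apply, ht0, ha.one] at this
    simp only [inv_one, one_mul, mul_one, AddMonoidHom.id_apply] at this
    rw [this]
    change a g (m (π g⁻¹ j₀)) - _ = _
    rw [hinv g hg]

end

end Pool.Agent.Helper69.FS
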