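import Pool.Agent.Helper21.FS.A3

/-! Shapiro's lemma for everywhere locally trivial classes, a normal subgroup `H` of `K₀` and a
module `N` induced from `K₁ ≤ K₀`. -/

set_option autoImplicit false

namespace Pool.Agent.Helper69.FS

open Pool.Agent.Helper58.FS

theorem relIndex_ne_zero_of_map {A : Type*} [AddCommGroup A] (V B : AddSubgroup A) {Y : Type*}
    [Finite Y] (f : B → Y) (h : ∀ b b' : B, f b = f b' → (b : A) - b' ∈ V) :
    V.relIndex B ≠ 0 := by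
  change (V.addSubgroupOf B).index ≠ 0
  rw [AddSubgroup.index_ne_zero_iff_finite]
  refine Finite.of_injective (fun q : B ⧸ V.addSubgroupOf B => f q.out) ?_
  intro q q' hq
  have h1 := h _ _ hq.symm
  rw [← QuotientAddGroup.out_eq' q, ← QuotientAddGroup.out_eq' q', QuotientAddGroup.eq]
  change ((-q.out + q'.out : B) : A) ∈ V
  rw [AddSubgroup.coe_add, AddSubgroup.coe_neg, neg_add_eq_sub]
  exact h1

theorem finite_of_relIndex {A : Type*} [AddCommGroup A] {V B : AddSubgroup A}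
    (h : V.relIndex B ≠ 0) : Finite (B ⧸ V.addSubgroupOf B) :=
  AddSubgroup.index_ne_zero_iff_finite.1 h

/-- Representatives in a subgroup. -/
theorem exists_reps {G : Type*} [Group G] (L U : Subgroup G) :
    ∃ t : G ⧸ U → G, (∀ q, t q ∈ L) ∧ ∀ g ∈ L, (t (g : G ⧸ U))⁻¹ * g ∈ U := by
  classical
  have h : ∀ q : G ⧸ U, ∃ t ∈ L, (∃ g ∈ L, (g : G ⧸ U) = q) → (t : G ⧸ U) = q := by
    intro q
    by_cases hq : ∃ g ∈ L, (g : G ⧸ U) = q
    · obtain ⟨g, hg, e⟩ := hq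
      exact ⟨g, hg, fun _ => e⟩
    · exact ⟨1, L.one_mem, fun h => absurd h hq⟩
  choose t ht1 ht2 using h
  refine ⟨t, ht1, fun g hg => ?_⟩
  have := ht2 (g : G ⧸ U) ⟨g, hg, rfl⟩
  exact QuotientGroup.eq.1 this

section

variable {G : Type*} [Group G] {T : Type*} [AddCommGroup T]

/-- Orbitwise triviality for induced modules. -/
theorem orbit_ind [TopologicalSpace G] {K₀ K₁ D : Subgroup G} (hK : K₁ ≤ K₀) (hD : D ≤ K₀)
    {b : G → T →+ T} (hb : Act K₁ b) (F : G → G → T)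
    (h1 : ∀ h ∈ D, ∀ g ∈ K₀, ∀ k ∈ K₁, F h (g * k) = b k⁻¹ (F h g))
    (h2 : ∀ h ∈ D, ∀ h' ∈ D, ∀ g ∈ K₀, F (h * h') g = F h g + F h' (h⁻¹ * g))
    (h3 : ∀ r ∈ K₀, ∃ τ : T, ∀ h ∈ D, r⁻¹ * h⁻¹ * r ∈ K₁ →
      F h r = b (r⁻¹ * h⁻¹ * r)⁻¹ τ - τ) :
    ∃ φ : G → T, (∀ g ∈ K₀, ∀ k ∈ K₁, φ (g * k) = b k⁻¹ (φ g)) ∧
      ∀ h ∈ D, ∀ g ∈ K₀, F h g = φ (h⁻¹ * g) - φ g := by
  classical
  -- the equivalence relation on `K₀`
  let s : Setoid K₀ :=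
    { r := fun g g' => ∃ d ∈ D, ∃ k ∈ K₁, (g' : G) = d * g * k
      iseqv :=
        { refl := fun g => ⟨1, D.one_mem, 1, K₁.one_mem, by simp⟩
          symm := by
            rintro g g' ⟨d, hd, k, hk, e⟩
            exact ⟨d⁻¹, D.inv_mem hd, k⁻¹, K₁.inv_mem hk, by rw [e]; group⟩
          trans := by
            rintro g g' g'' ⟨d, hd, k, hk, e⟩ ⟨d', hd', k', hk', e'⟩
            exact ⟨d' * d, D.mul_mem hd' hd, k * k', K₁.mul_mem hk hk', by rw [e', e]; group⟩ } }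
  let S : K₀ → K₀ := fun g => (Quotient.mk s g).out
  have hS : ∀ g g' : K₀, s.r g g' → S g = S g' := by
    intro g g' h
    change (Quotient.mk s g).out = (Quotient.mk s g').out
    rw [Quotient.sound h]
  have hSg : ∀ g : K₀, ∃ d ∈ D, ∃ k ∈ K₁, (g : G) = d * S g * k := fun g =>
    Quotient.exact (Quotient.out_eq (Quotient.mk s g))
  choose d hd k hk hdk using hSg
  choose τ hτ using fun g : K₀ => h3 (S g) (S g).2
  -- `τ` depends on the representative only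
  choose τ' hτ' using fun r : K₀ => h3 r r.2
  let φ : G → T := fun g =>
    if hg : g ∈ K₀ then b (k ⟨g, hg⟩)⁻¹ (F (d ⟨g, hg⟩)⁻¹ (S ⟨g, hg⟩) + τ' (S ⟨g, hg⟩)) else 0
  have bmul : ∀ x ∈ K₁, ∀ y ∈ K₁, ∀ t, b (x * y) t = b x (b y t) := fun x hx y hy t => by
    rw [hb.mul x hx y hy]
    rfl
  -- well definedness
  have hW : ∀ g : K₀, ∀ e ∈ D, ∀ l ∈ K₁, (g : G) = e⁻¹ * S g * l →
      φ g = b l⁻¹ (F e (S g) + τ' (S g)) := by
    intro g e he l hl hg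
    have hr : ((S g : K₀) : G) ∈ K₀ := (S g).2
    obtain ⟨r, hrdef⟩ : ∃ r : G, r = S g := ⟨_, rfl⟩
    have hφ : φ g = b (k g)⁻¹ (F (d g)⁻¹ (S g) + τ' (S g)) := by
      change (if hg : (g : G) ∈ K₀ then _ else _) = _
      rw [dif_pos g.2]
    rw [hφ, ← hrdef]
    rw [← hrdef] at hg hr
    -- `d₀⁻¹ r k₀ = e⁻¹ r l` with `d₀ = (d g)⁻¹`
    have hd0 : (d g)⁻¹ ∈ D := D.inv_mem (hd g)
    have e1 : (g : G) = d g * r * k g := by rw [hrdef]; exact hdk g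
    -- `h = e d₀⁻¹`
    have hhD : e * d g ∈ D := D.mul_mem he (hd g)
    have e2 : r⁻¹ * (e * d g)⁻¹ * r = k g * l⁻¹ := by
      have : d g * r * k g = e⁻¹ * r * l := by rw [← e1, hg]
      have h5 : r * k g * l⁻¹ = (d g)⁻¹ * e⁻¹ * r := by
        have h6 : r * k g = (d g)⁻¹ * (e⁻¹ * r * l) := by rw [← this]; group
        rw [h6]
        group
      calc r⁻¹ * (e * d g)⁻¹ * r = r⁻¹ * ((d g)⁻¹ * e⁻¹ * r) := by group
        _ = r⁻¹ * (r * k g * l⁻¹) := by rw [h5]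
        _ = k g * l⁻¹ := by group
    have hkl : k g * l⁻¹ ∈ K₁ := K₁.mul_mem (hk g) (K₁.inv_mem hl)
    have e3 : F (e * d g) r = b (k g * l⁻¹)⁻¹ (τ' (S g)) - τ' (S g) := by
      have := hτ' (S g) (e * d g) hhD (by rw [← hrdef, e2]; exact hkl)
      rw [← hrdef, e2] at this
      exact this
    have e4 : F e r = F (e * d g) r + b (k g * l⁻¹)⁻¹ (F (d g)⁻¹ r) := by
      have h7 := h2 (e * d g) hhD (d g)⁻¹ hd0 r hr
      rw [mul_inv_cancel_right] at h7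
      rw [h7]
      congr 1
      have h8 : (e * d g)⁻¹ * r = r * (k g * l⁻¹) := by
        rw [← e2]
        group
      rw [h8, h1 _ hd0 r hr _ hkl]
    rw [e4, e3]
    have e5 : b (k g)⁻¹ (F (d g)⁻¹ r + τ' (S g)) =
        b l⁻¹ (b (k g * l⁻¹)⁻¹ (F (d g)⁻¹ r + τ' (S g))) := by
      rw [← bmul _ (K₁.inv_mem hl) _ (K₁.inv_mem hkl)]
      congr 2
      group
    rw [e5]
    congr 1
    rw [map_add]
    abel
  refine ⟨φ, ?_, ?_⟩
  · intro g hg l hl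
    have hgl : g * l ∈ K₀ := K₀.mul_mem hg (hK hl)
    have e1 := hdk ⟨g, hg⟩
    have hSS : S ⟨g * l, hgl⟩ = S ⟨g, hg⟩ :=
      (hS _ _ ⟨1, D.one_mem, l, hl, by simp⟩).symm
    have e2 := hW ⟨g, hg⟩ (d ⟨g, hg⟩)⁻¹ (D.inv_mem (hd _)) (k ⟨g, hg⟩) (hk _)
      (by rw [inv_inv]; exact e1)
    have e3 := hW ⟨g * l, hgl⟩ (d ⟨g, hg⟩)⁻¹ (D.inv_mem (hd _)) (k ⟨g, hg⟩ * l)
      (K₁.mul_mem (hk _) hl) (by
        rw [inv_inv, hSS]
        change g * l = _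
        have : g = d ⟨g, hg⟩ * S ⟨g, hg⟩ * k ⟨g, hg⟩ := e1
        conv_lhs => rw [this]
        group)
    change φ g = _ at e2
    change φ (g * l) = _ at e3
    rw [e3, e2, hSS, mul_inv_rev, bmul _ (K₁.inv_mem hl) _ (K₁.inv_mem (hk _))]
  · intro h hh g hg
    have hhg : h⁻¹ * g ∈ K₀ := K₀.mul_mem (K₀.inv_mem (hD hh)) hg
    have e1 := hdk ⟨g, hg⟩
    have hSS : S ⟨h⁻¹ * g, hhg⟩ = S ⟨g, hg⟩ :=
      (hS _ _ ⟨h⁻¹, D.inv_mem hh, 1, K₁.one_mem, by simp⟩).symm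
    obtain ⟨e, he⟩ : ∃ e, e = (d ⟨g, hg⟩)⁻¹ := ⟨_, rfl⟩
    have heD : e ∈ D := by rw [he]; exact D.inv_mem (hd _)
    have hgg : g = e⁻¹ * S ⟨g, hg⟩ * k ⟨g, hg⟩ := by
      rw [he, inv_inv]
      exact e1
    have e2 := hW ⟨g, hg⟩ e heD (k ⟨g, hg⟩) (hk _) hgg
    have e3 := hW ⟨h⁻¹ * g, hhg⟩ (e * h) (D.mul_mem heD hh) (k ⟨g, hg⟩) (hk _) (by
      rw [hSS]
      change h⁻¹ * g = _
      conv_lhs => rw [hgg]
      group)
    change φ g = _ at e2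
    change φ (h⁻¹ * g) = _ at e3
    have hr := (S ⟨g, hg⟩).2
    have e4 : F h g = b (k ⟨g, hg⟩)⁻¹ (F h (e⁻¹ * S ⟨g, hg⟩)) := by
      rw [← h1 h hh _ (K₀.mul_mem (K₀.inv_mem (hD heD)) hr) _ (hk _), ← hgg]
    rw [e3, e2, hSS, h2 e heD h hh _ hr, e4, ← map_sub]
    congr 1
    abel

end

section

variable {G : Type*} [Group G] [TopologicalSpace G] [IsTopologicalGroup G] [CompactSpace G]
  (X : Type*) [MulAction G X] {N T : Type*} [AddCommGroup N] [AddCommGroup T]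

theorem shg_inj {H K₀ K₁ : Subgroup G} (hK : K₁ ≤ K₀) (hH : H ≤ K₀)
    (hno : ∀ g ∈ K₀, ∀ h ∈ H, g * h * g⁻¹ ∈ H)
    (hU : ∃ U : Subgroup G, IsOpen (U : Set G) ∧ U ⊓ K₀ ≤ K₁)
    {a : G → N →+ N} (ha : Act K₀ a) {b : G → T →+ T} (hb : Act K₁ b) [Finite N] [Finite T]
    (e : N →+ T) (he : ∀ g ∈ K₁, ∀ n, e (a g n) = b g (e n))
    (hinj : ∀ n, (∀ g ∈ K₀, e (a g n) = 0) → n = 0) (h : FinSh X b (H ⊓ K₁)) :
    FinSh X a H := by
  classical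
  obtain ⟨U₁, hU₁o, hU₁⟩ := hU
  obtain ⟨U, hUn, hUo, hUU⟩ := Pool.Agent.Helper21.FS.exists_open_normal hU₁o
  have hUK : ∀ u ∈ U, u ∈ K₀ → u ∈ K₁ := fun u hu hk => hU₁ ⟨hUU hu, hk⟩
  have hfin : Finite (G ⧸ U) := Subgroup.quotient_finite_of_isOpen _ hUo
  have amul : ∀ x ∈ K₀, ∀ y ∈ K₀, ∀ n, a (x * y) n = a x (a y n) := fun x hx y hy n => by
    rw [ha.mul x hx y hy]
    rfl
  obtain ⟨t, htK, ht⟩ := exists_reps K₀ U
  obtain ⟨s, hsH, hs⟩ := exists_reps H U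
  have hQ : Finite ((Zsh X b (H ⊓ K₁)) ⧸ (Bsh b (H ⊓ K₁)).addSubgroupOf (Zsh X b (H ⊓ K₁))) :=
    finite_of_relIndex h
  -- the components
  let ct : (G → N) → (G ⧸ U) → G → T := fun c q g => e (a (t q)⁻¹ (c (t q * g * (t q)⁻¹)))
  have hct : ∀ c ∈ Zsh X a H, ∀ q, ct c q ∈ Zsh X b (H ⊓ K₁) := by
    rintro c ⟨hc1, ⟨V, hV, hc2⟩, hc3⟩ q
    have hcH : ∀ g ∈ H, t q * g * (t q)⁻¹ ∈ H := fun g hg => hno (t q) (htK q) g hg
    have key : ∀ g ∈ K₁, ∀ n, e (a (t q)⁻¹ (a (t q * g * (t q)⁻¹) n)) =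
        b g (e (a (t q)⁻¹ n)) := by
      intro g hg n
      have hgK := hK hg
      rw [← amul _ (K₀.inv_mem (htK q)) _
        (K₀.mul_mem (K₀.mul_mem (htK q) hgK) (K₀.inv_mem (htK q)))]
      have : (t q)⁻¹ * (t q * g * (t q)⁻¹) = g * (t q)⁻¹ := by group
      rw [this, amul _ hgK _ (K₀.inv_mem (htK q)), he g hg]
    refine ⟨?_, ?_, ?_⟩
    · intro g hg g' hg'
      change e (a (t q)⁻¹ (c (t q * (g * g') * (t q)⁻¹))) = _
      have : t q * (g * g') * (t q)⁻¹ = (t q * g * (t q)⁻¹) * (t q * g' * (t q)⁻¹) := by group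
      rw [this, hc1 _ (hcH g hg.1) _ (hcH g' hg'.1), map_add, map_add, key g hg.2]
    · refine ⟨V.comap (MulAut.conj (t q)).toMonoidHom, ?_, ?_⟩
      · have : ((V.comap (MulAut.conj (t q)).toMonoidHom : Subgroup G) : Set G) =
            (fun g => t q * g * (t q)⁻¹) ⁻¹' (V : Set G) := by
          ext g
          simp
        rw [this]
        refine hV.preimage ?_
        fun_prop
      · intro g hg u hu
        change e (a (t q)⁻¹ (c (t q * (g * u) * (t q)⁻¹))) = e (a (t q)⁻¹ (c (t q * g * (t q)⁻¹)))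
        have : t q * (g * u) * (t q)⁻¹ = (t q * g * (t q)⁻¹) * (t q * u * (t q)⁻¹) := by group
        have hu' : t q * u * (t q)⁻¹ ∈ V := by simpa using hu.1
        rw [this, hc2 _ (hcH g hg.1) (t q * u * (t q)⁻¹) ⟨hu', hcH u hu.2.1⟩]
    · intro x
      obtain ⟨m, hm⟩ := hc3 (t q • x)
      refine ⟨e (a (t q)⁻¹ m), fun g hg hgx => ?_⟩
      change e (a (t q)⁻¹ (c (t q * g * (t q)⁻¹))) = _
      rw [hm _ (hcH g hg.1) (by rw [mul_smul, inv_smul_smul, mul_smul, hgx]), map_sub, map_sub,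
        key g hg.2]
  -- the finite data
  let cl : ∀ c : Zsh X a H, (G ⧸ U) → (Zsh X b (H ⊓ K₁)) ⧸
      (Bsh b (H ⊓ K₁)).addSubgroupOf (Zsh X b (H ⊓ K₁)) :=
    fun c q => QuotientAddGroup.mk ⟨ct c.1 q, hct c.1 c.2 q⟩
  have hcl : ∀ (c : Zsh X a H) (q : G ⧸ U), ∃ m : T, ∀ g ∈ H ⊓ K₁,
      ct c.1 q g - ((cl c q).out : G → T) g = b g m - m := by
    intro c q
    have h1 : (QuotientAddGroup.mk (cl c q).out : (Zsh X b (H ⊓ K₁)) ⧸
      (Bsh b (H ⊓ K₁)).addSubgroupOf (Zsh X b (H ⊓ K₁))) = cl c q := QuotientAddGroup.out_eq' _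
    have h2 := QuotientAddGroup.eq.1 h1
    rw [AddSubgroup.mem_addSubgroupOf, AddSubgroup.coe_add, AddSubgroup.coe_neg] at h2
    obtain ⟨m, hm⟩ := h2
    refine ⟨m, fun g hg => ?_⟩
    have := hm g hg
    rw [Pi.add_apply, Pi.neg_apply, neg_add_eq_sub] at this
    exact this
  choose τ hτ using hcl
  refine relIndex_ne_zero_of_map (Bsh a H) (Zsh X a H)
    (fun c => ((cl c, τ c, fun q => c.1 (s q)) :
      ((G ⧸ U) → (Zsh X b (H ⊓ K₁)) ⧸ (Bsh b (H ⊓ K₁)).addSubgroupOf (Zsh X b (H ⊓ K₁))) ×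
        ((G ⧸ U) → T) × ((G ⧸ U) → N))) ?_
  intro c c' hcc
  simp only [Prod.mk.injEq] at hcc
  obtain ⟨hcc1, hcc2, hcc3⟩ := hcc
  have heq : ∀ q, ∀ g ∈ H ⊓ K₁, ct c.1 q g = ct c'.1 q g := by
    intro q g hg
    have h1 := hτ c q g hg
    have h2 := hτ c' q g hg
    rw [← hcc1, ← hcc2] at h2
    rw [← h2] at h1
    exact sub_left_inj.1 h1
  refine ⟨0, fun g hg => ?_⟩
  rw [map_zero, sub_zero]
  apply hinj
  intro y hy
  -- `y⁻¹ = t k`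
  obtain ⟨q, hq⟩ : ∃ q : G ⧸ U, q = ((y⁻¹ : G) : G ⧸ U) := ⟨_, rfl⟩
  have hk := ht y⁻¹ (K₀.inv_mem hy)
  rw [← hq] at hk
  have hkK : (t q)⁻¹ * y⁻¹ ∈ K₁ :=
    hUK _ hk (K₀.mul_mem (K₀.inv_mem (htK q)) (K₀.inv_mem hy))
  have ey : y = ((t q)⁻¹ * y⁻¹)⁻¹ * (t q)⁻¹ := by group
  rw [ey, amul _ (hK (K₁.inv_mem hkK)) _ (K₀.inv_mem (htK q)), he _ (K₁.inv_mem hkK)]
  suffices hsuf : e (a (t q)⁻¹ ((c.1 - c'.1) g)) = 0 by rw [hsuf, map_zero]
  rw [Pi.sub_apply, map_sub, map_sub, sub_eq_zero]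
  -- `g = u s`
  obtain ⟨w, hw⟩ : ∃ w, w = s (g : G ⧸ U) := ⟨_, rfl⟩
  have hwH : w ∈ H := by rw [hw]; exact hsH _
  have huU : g * w⁻¹ ∈ U := by
    have h1 := hs g hg
    rw [← hw] at h1
    have h2 := hUn.conj_mem _ h1 w
    have : w * (w⁻¹ * g) * w⁻¹ = g * w⁻¹ := by group
    rwa [this] at h2
  have huH : g * w⁻¹ ∈ H := H.mul_mem hg (H.inv_mem hwH)
  have hu1 : (t q)⁻¹ * (g * w⁻¹) * t q ∈ H ⊓ K₁ := by
    have h1 : (t q)⁻¹ * (g * w⁻¹) * t q ∈ H := by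
      have := hno (t q)⁻¹ (K₀.inv_mem (htK q)) _ huH
      rwa [inv_inv] at this
    have h2 : (t q)⁻¹ * (g * w⁻¹) * t q ∈ U := by
      have := hUn.conj_mem _ huU (t q)⁻¹
      rwa [inv_inv] at this
    exact ⟨h1, hUK _ h2 (hH h1)⟩
  have hval : ∀ c : Zsh X a H, e (a (t q)⁻¹ (c.1 g)) =
      ct c.1 q ((t q)⁻¹ * (g * w⁻¹) * t q) + e (a (t q)⁻¹ (a (g * w⁻¹) (c.1 w))) := by
    intro c
    have h1 := c.2.1 _ huH _ hwH
    rw [inv_mul_cancel_right] at h1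
    rw [h1, map_add, map_add]
    congr 1
    change _ = e (a (t q)⁻¹ (c.1 (t q * ((t q)⁻¹ * (g * w⁻¹) * t q) * (t q)⁻¹)))
    congr 3
    group
  have hcw : c.1 w = c'.1 w := by
    rw [hw]
    exact congrFun hcc3 (g : G ⧸ U)
  rw [hval c, hval c', heq q _ hu1, hcw]

theorem shg {H K₀ K₁ : Subgroup G} (hK : K₁ ≤ K₀) (hH : H ≤ K₀)
    (hno : ∀ g ∈ K₀, ∀ h ∈ H, g * h * g⁻¹ ∈ H)
    (hU : ∃ U : Subgroup G, IsOpen (U : Set G) ∧ U ⊓ K₀ ≤ K₁)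
    {a : G → N →+ N} (ha : Act K₀ a) {b : G → T →+ T} (hb : Act K₁ b) [Finite N] [Finite T]
    (e : N →+ T) (he : ∀ g ∈ K₁, ∀ n, e (a g n) = b g (e n))
    (hinj : ∀ n, (∀ g ∈ K₀, e (a g n) = 0) → n = 0)
    (hsurj : ∀ F : G → T, (∀ g ∈ K₀, ∀ k ∈ K₁, F (g * k) = b k⁻¹ (F g)) →
      ∃ n, ∀ g ∈ K₀, e (a g⁻¹ n) = F g) :
    FinSh X a H ↔ FinSh X b (H ⊓ K₁) := by
  classical
  refine ⟨fun h => ?_, fun h => shg_inj X hK hH hno hU ha hb e he hinj h⟩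
  obtain ⟨U₁, hU₁o, hU₁⟩ := hU
  have amul : ∀ x ∈ K₀, ∀ y ∈ K₀, ∀ n, a (x * y) n = a x (a y n) := fun x hx y hy n => by
    rw [ha.mul x hx y hy]
    rfl
  have bmul : ∀ x ∈ K₁, ∀ y ∈ K₁, ∀ t, b (x * y) t = b x (b y t) := fun x hx y hy t => by
    rw [hb.mul x hx y hy]
    rfl
  have hinj' : ∀ n n' : N, (∀ g ∈ K₀, e (a g⁻¹ n) = e (a g⁻¹ n')) → n = n' := by
    intro n n' hnn
    rw [← sub_eq_zero]
    apply hinj
    intro g hg
    have := hnn g⁻¹ (K₀.inv_mem hg)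
    rw [inv_inv] at this
    rw [map_sub, map_sub, this, sub_self]
  -- the transversal
  have hw0 : ∀ q : G ⧸ K₁, ∃ w : G, ((∃ x ∈ H, ((x : G) : G ⧸ K₁) = q) → w ∈ H ∧
      ((w : G) : G ⧸ K₁) = q) ∧ (q = ((1 : G) : G ⧸ K₁) → w = 1) := by
    intro q
    by_cases hq : q = ((1 : G) : G ⧸ K₁)
    · exact ⟨1, fun _ => ⟨H.one_mem, hq.symm⟩, fun _ => rfl⟩
    · by_cases hx : ∃ x ∈ H, ((x : G) : G ⧸ K₁) = q
      · obtain ⟨x, hx1, hx2⟩ := hx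
        exact ⟨x, fun _ => ⟨hx1, hx2⟩, fun h => absurd h hq⟩
      · exact ⟨1, fun h => absurd h hx, fun h => absurd h hq⟩
  choose w' hw'1 hw'2 using hw0
  let w : G → G := fun g => w' (g : G ⧸ K₁)
  let In : G → Prop := fun g => ∃ x ∈ H, x⁻¹ * g ∈ K₁
  have hwk : ∀ g, ∀ k ∈ K₁, w (g * k) = w g := by
    intro g k hk
    change w' ((g * k : G) : G ⧸ K₁) = w' (g : G ⧸ K₁)
    congr 1
    exact (QuotientGroup.eq.2 (by rw [inv_mul_cancel_left]; exact hk)).symm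
  have hwk' : ∀ g g', g⁻¹ * g' ∈ K₁ → w g' = w g := by
    intro g g' hgg
    have := hwk g _ hgg
    rwa [mul_inv_cancel_left] at this
  have hwI : ∀ g, In g → w g ∈ H ∧ (w g)⁻¹ * g ∈ K₁ := by
    rintro g ⟨x, hx, hxg⟩
    have := hw'1 (g : G ⧸ K₁) ⟨x, hx, QuotientGroup.eq.2 hxg⟩
    exact ⟨this.1, QuotientGroup.eq.1 this.2⟩
  have hw1 : ∀ k ∈ K₁, w k = 1 := by
    intro k hk
    apply hw'2
    exact (QuotientGroup.eq.2 (by rw [inv_one, one_mul]; exact hk)).symm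
  have hIk : ∀ g, ∀ k ∈ K₁, (In (g * k) ↔ In g) := by
    intro g k hk
    constructor
    · rintro ⟨x, hx, h⟩
      refine ⟨x, hx, ?_⟩
      have := K₁.mul_mem h (K₁.inv_mem hk)
      rwa [← mul_assoc, mul_inv_cancel_right] at this
    · rintro ⟨x, hx, h⟩
      exact ⟨x, hx, by rw [← mul_assoc]; exact K₁.mul_mem h hk⟩
  have hIh : ∀ h ∈ H, ∀ g, (In (h⁻¹ * g) ↔ In g) := by
    intro h hh g
    constructor
    · rintro ⟨x, hx, hx2⟩
      exact ⟨h * x, H.mul_mem hh hx, by rw [mul_inv_rev, mul_assoc]; exact hx2⟩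
    · rintro ⟨x, hx, hx2⟩
      refine ⟨h⁻¹ * x, H.mul_mem (H.inv_mem hh) hx, ?_⟩
      have : (h⁻¹ * x)⁻¹ * (h⁻¹ * g) = x⁻¹ * g := by group
      rwa [this]
  -- the element of `H ⊓ K₁`
  have hel : ∀ g, In g → ∀ h ∈ H, (w g)⁻¹ * h * w (h⁻¹ * g) ∈ H ⊓ K₁ := by
    intro g hg h hh
    have h1 := hwI g hg
    have h2 := hwI (h⁻¹ * g) ((hIh h hh g).2 hg)
    refine ⟨H.mul_mem (H.mul_mem (H.inv_mem h1.1) hh) h2.1, ?_⟩
    have := K₁.mul_mem h1.2 (K₁.inv_mem h2.2)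
    have e1 : (w g)⁻¹ * g * ((w (h⁻¹ * g))⁻¹ * (h⁻¹ * g))⁻¹ = (w g)⁻¹ * h * w (h⁻¹ * g) := by
      group
    rwa [e1] at this
  -- the induced cochain
  let F : (G → T) → G → G → T := fun c h g =>
    if In g then b ((w g)⁻¹ * g)⁻¹ (c ((w g)⁻¹ * h * w (h⁻¹ * g))) else 0
  have hFin : ∀ c h g, In g → F c h g = b ((w g)⁻¹ * g)⁻¹ (c ((w g)⁻¹ * h * w (h⁻¹ * g))) :=
    fun c h g hg => if_pos hg
  have hFout : ∀ c h g, ¬ In g → F c h g = 0 := fun c h g hg => if_neg hg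
  have hF1 : ∀ c, ∀ h, ∀ g, ∀ k ∈ K₁, F c h (g * k) = b k⁻¹ (F c h g) := by
    intro c h g k hk
    by_cases hg : In g
    · rw [hFin c h g hg, hFin c h (g * k) ((hIk g k hk).2 hg), hwk g k hk]
      have e1 : h⁻¹ * (g * k) = h⁻¹ * g * k := by group
      rw [e1, hwk _ k hk, ← bmul _ (K₁.inv_mem hk) _ (K₁.inv_mem (hwI g hg).2)]
      congr 2
      group
    · rw [hFout c h g hg, hFout c h (g * k) (fun h' => hg ((hIk g k hk).1 h')), map_zero]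
  have hF2 : ∀ c ∈ Zsh X b (H ⊓ K₁), ∀ h ∈ H, ∀ h' ∈ H, ∀ g,
      F c (h * h') g = F c h g + F c h' (h⁻¹ * g) := by
    intro c hc h hh h' hh' g
    by_cases hg : In g
    · have hg1 := (hIh h hh g).2 hg
      rw [hFin c _ g hg, hFin c _ g hg, hFin c _ _ hg1]
      obtain ⟨u, hu⟩ : ∃ u, u = w g := ⟨_, rfl⟩
      obtain ⟨v, hv⟩ : ∃ v, v = w (h⁻¹ * g) := ⟨_, rfl⟩
      obtain ⟨z, hz⟩ : ∃ z, z = w (h'⁻¹ * (h⁻¹ * g)) := ⟨_, rfl⟩
      have e0 : (h * h')⁻¹ * g = h'⁻¹ * (h⁻¹ * g) := by group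
      have m1 := hel g hg h hh
      have m2 := hel _ hg1 h' hh'
      have m3 := (hwI g hg).2
      rw [e0, ← hu, ← hv, ← hz]
      rw [← hu, ← hv] at m1
      rw [← hv, ← hz] at m2
      rw [← hu] at m3
      have e1 : u⁻¹ * (h * h') * z = (u⁻¹ * h * v) * (v⁻¹ * h' * z) := by group
      rw [e1, hc.1 _ m1 _ m2, map_add]
      congr 1
      rw [← bmul _ (K₁.inv_mem m3) _ m1.2]
      congr 2
      group
    · rw [hFout c _ g hg, hFout c _ g hg, hFout c _ _ (fun h' => hg ((hIh h hh g).1 h')), add_zero]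
  choose c₀ hc₀ using fun (c : G → T) (h : G) => hsurj (F c h) (fun g _ k hk => hF1 c h g k hk)
  have hc₀Z : ∀ c ∈ Zsh X b (H ⊓ K₁), c₀ c ∈ Zsh X a H := by
    intro c hc
    have hcoc : ∀ g ∈ H, ∀ h ∈ H, c₀ c (g * h) = c₀ c g + a g (c₀ c h) := by
      intro g hg h hh
      apply hinj'
      intro y hy
      rw [hc₀ c _ y hy, map_add, map_add, hc₀ c _ y hy, hF2 c hc g hg h hh]
      congr 1
      have hgy : g⁻¹ * y ∈ K₀ := K₀.mul_mem (K₀.inv_mem (hH hg)) hy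
      rw [← hc₀ c h _ hgy, ← amul _ (K₀.inv_mem hy) _ (hH hg)]
      congr 2
      group
    refine ⟨hcoc, ?_, ?_⟩
    · obtain ⟨V, hV, hc2⟩ := hc.2.1
      obtain ⟨U, hUn, hUo, hUU⟩ := Pool.Agent.Helper21.FS.exists_open_normal
        (U := U₁ ⊓ V) (hU₁o.inter hV)
      refine ⟨U, hUo, fun g hg u hu => ?_⟩
      apply hinj'
      intro y hy
      rw [hc₀ c _ y hy, hc₀ c _ y hy]
      by_cases hI : In y
      · have hI1 := (hIh g hg y).2 hI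
        rw [hFin c _ y hI, hFin c _ y hI]
        congr 1
        have e1 : w ((g * u)⁻¹ * y) = w (g⁻¹ * y) := by
          apply hwk'
          have e2 : (g⁻¹ * y)⁻¹ * ((g * u)⁻¹ * y) = (y⁻¹ * g) * u⁻¹ * (y⁻¹ * g)⁻¹ := by group
          rw [e2]
          have h5 : (y⁻¹ * g) * u⁻¹ * (y⁻¹ * g)⁻¹ ∈ U := hUn.conj_mem _ (U.inv_mem hu.1) _
          have h6 : (y⁻¹ * g) * u⁻¹ * (y⁻¹ * g)⁻¹ ∈ K₀ := by
            have h7 : y⁻¹ * g ∈ K₀ := K₀.mul_mem (K₀.inv_mem hy) (hH hg)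
            exact K₀.mul_mem (K₀.mul_mem h7 (K₀.inv_mem (hH hu.2))) (K₀.inv_mem h7)
          exact hU₁ ⟨(hUU h5).1, h6⟩
        rw [e1]
        obtain ⟨v, hv⟩ : ∃ v, v = w (g⁻¹ * y) := ⟨_, rfl⟩
        rw [← hv]
        have hvH : v ∈ H := by rw [hv]; exact (hwI _ hI1).1
        have m1 := hel y hI g hg
        rw [← hv] at m1
        have e2 : (w y)⁻¹ * (g * u) * v = ((w y)⁻¹ * g * v) * (v⁻¹ * u * v) := by group
        rw [e2]
        refine hc2 _ m1 _ ⟨?_, ?_, ?_⟩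
        · have := hUn.conj_mem _ hu.1 v⁻¹
          rw [inv_inv] at this
          exact (hUU this).2
        · exact H.mul_mem (H.mul_mem (H.inv_mem hvH) hu.2) hvH
        · have := hUn.conj_mem _ hu.1 v⁻¹
          rw [inv_inv] at this
          exact hU₁ ⟨(hUU this).1, hH (H.mul_mem (H.mul_mem (H.inv_mem hvH) hu.2) hvH)⟩
      · rw [hFout c _ y hI, hFout c _ y hI]
    · intro x
      let D : Subgroup G := H ⊓ MulAction.stabilizer G x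
      have hDH : D ≤ H := inf_le_left
      obtain ⟨φ, hφ1, hφ2⟩ := orbit_ind (K₀ := K₀) (K₁ := K₁) (D := D) hK (hDH.trans hH) hb (F c)
        (fun h hh g hg k hk => hF1 c h g k hk)
        (fun h hh h' hh' g hg => hF2 c hc h (hDH hh) h' (hDH hh') g) (by
          intro r hr
          by_cases hI : In r
          · obtain ⟨m, hm⟩ := hc.2.2 ((w r)⁻¹ • x)
            have hwr := hwI r hI
            refine ⟨b ((w r)⁻¹ * r)⁻¹ m, fun h hh hk => ?_⟩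
            rw [hFin c h r hI]
            have e1 : w (h⁻¹ * r) = w r := by
              apply hwk'
              rwa [← mul_assoc]
            have m1 := hel r hI h (hDH hh)
            rw [e1] at m1 ⊢
            rw [hm _ m1 (by
              rw [smul_smul, mul_assoc, mul_inv_cancel, mul_one, mul_smul, hh.2]), map_sub]
            congr 1
            rw [← bmul _ (K₁.inv_mem hwr.2) _ m1.2, ← bmul _ (K₁.inv_mem hk) _
              (K₁.inv_mem hwr.2)]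
            congr 2
            group
          · exact ⟨0, fun h hh hk => by rw [hFout c h r hI, map_zero, sub_zero]⟩)
      obtain ⟨n, hn⟩ := hsurj φ hφ1
      refine ⟨n, fun g hg hgx => ?_⟩
      have hgD : g ∈ D := ⟨hg, hgx⟩
      apply hinj'
      intro y hy
      rw [hc₀ c g y hy, hφ2 g hgD y hy, map_sub, map_sub, hn y hy]
      congr 1
      rw [← hn _ (K₀.mul_mem (K₀.inv_mem (hH hg)) hy), ← amul _ (K₀.inv_mem hy) _ (hH hg)]
      congr 2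
      group
  have hQ : Finite ((Zsh X a H) ⧸ (Bsh a H).addSubgroupOf (Zsh X a H)) := finite_of_relIndex h
  refine relIndex_ne_zero_of_map (Bsh b (H ⊓ K₁)) (Zsh X b (H ⊓ K₁))
    (fun c => (QuotientAddGroup.mk ⟨c₀ c.1, hc₀Z c.1 c.2⟩ :
      (Zsh X a H) ⧸ (Bsh a H).addSubgroupOf (Zsh X a H))) ?_
  intro c c' hcc
  have h2 := QuotientAddGroup.eq.1 hcc.symm
  rw [AddSubgroup.mem_addSubgroupOf, AddSubgroup.coe_add, AddSubgroup.coe_neg] at h2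
  obtain ⟨n, hn⟩ := h2
  have hval : ∀ c : G → T, ∀ g ∈ H ⊓ K₁, e (c₀ c g) = c g := by
    intro c g hg
    have hI1 : In (1 : G) := ⟨1, H.one_mem, by simp⟩
    have h3 := hc₀ c g 1 K₀.one_mem
    have hI2 : w (g⁻¹ * 1) = 1 := hw1 _ (by rw [mul_one]; exact K₁.inv_mem hg.2)
    rw [inv_one, ha.one, hFin c g 1 hI1, hw1 1 K₁.one_mem, hI2] at h3
    rw [AddMonoidHom.id_apply] at h3
    rw [h3]
    have e1 : ((1 : G)⁻¹ * 1)⁻¹ = 1 := by group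
    have e2 : (1 : G)⁻¹ * g * 1 = g := by group
    rw [e1, e2, hb.one]
    rfl
  refine ⟨e n, fun g hg => ?_⟩
  have h4 := hn g hg.1
  change -(c₀ c'.1 g) + c₀ c.1 g = _ at h4
  have h5 := congrArg e h4
  rw [map_add, map_neg, map_sub, he g hg.2, hval c.1 g hg, hval c'.1 g hg] at h5
  change c.1 g - c'.1 g = _
  rw [← h5]
  abel

end

end Pool.Agent.Helper69.FS
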