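import Pool.Agent.Helper69.FS.Nos
import Pool.Agent.Helper3.FS.Val

/-! D2, complete. -/

set_option autoImplicit false

open scoped NumberField Pointwise
open WeierstrassCurve

namespace Pool.Agent.Helper69.FS

open Pool.Agent.Helper58.FS Pool.Agent.Helper58.IQ

/-- Almost all primes are unramified in the field of all points of `p`-power order. -/
theorem nos {K : Type*} [Field K] [NumberField K] (W : WeierstrassCurve K) (hW : W.Δ ≠ 0) {p : ℕ}
    (hp : p.Prime) (hp2 : p ≠ 2) (hf : Finite (torp p W)) :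
    ∃ N : ℕ, N ≠ 0 ∧ ∀ P : Ideal (𝓞 (Kb K)), P.IsPrime → P ≠ ⊥ → (N : 𝓞 (Kb K)) ∉ P →
      ∀ g ∈ inert P, ∀ Q : Pts W, Q ∈ torInf p W → ptsRep W g Q = Q :=
  nos_of Pool.Agent.Helper3.FS.val Pool.Agent.Helper3.FS.unit_almost W hW hp hp2 hf

end Pool.Agent.Helper69.FS
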