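import Pool.Agent.Helper58.IQ.Defs

/-! C5 of the project of helper58 on MP_b529ab_nt: devissage for isogenies, general `p`. -/

set_option autoImplicit false

namespace Pool.Agent.Helper69.FS

open Pool.Agent.Helper58.IQ Function

universe u

/-- Every `p`-torsion point of `B` is the image of a `p`-primary element of `A`. -/
theorem exists_primary {A B : Type*} [AddCommGroup A] [AddCommGroup B] {p : ℕ} (hp : p.Prime)
    (φ : A →+ B) (hφ : Surjective φ) (hker : Finite φ.ker) :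
    ∃ k : ℕ, ∀ Q : B, p • Q = 0 → ∃ P : A, p ^ k • P = 0 ∧ φ P = Q := by
  set e := AddMonoid.exponent φ.ker with he
  have he0 : e ≠ 0 := AddMonoid.exponent_ne_zero_of_finite
  obtain ⟨j, u, hu, heu⟩ := Nat.exists_eq_pow_mul_and_not_dvd he0 p hp.ne_one
  have hcop : Nat.Coprime u p := ((hp.coprime_iff_not_dvd).2 hu).symm
  obtain ⟨v, w, hw⟩ : ∃ v w : ℕ, v * u = 1 + p * w := by
    obtain ⟨v, -, hv⟩ := Nat.exists_mul_mod_eq_one_of_coprime hcop hp.one_lt
    refine ⟨v, (u * v) / p, ?_⟩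
    have := Nat.mod_add_div (u * v) p
    rw [hv] at this
    rw [mul_comm v u]
    exact this.symm
  refine ⟨j + 1, fun Q hQ => ?_⟩
  obtain ⟨P, rfl⟩ := hφ Q
  have h3 : φ (p • P) = 0 := by rw [map_nsmul, hQ]
  have h4 : e • (p • P) = 0 := by
    have := AddMonoid.exponent_nsmul_eq_zero (⟨p • P, h3⟩ : φ.ker)
    exact congrArg Subtype.val this
  refine ⟨(v * u) • P, ?_, ?_⟩
  · have : p ^ (j + 1) * (v * u) = v * (e * p) := by rw [heu]; ring
    rw [← mul_nsmul', this, mul_nsmul', mul_nsmul', h4, nsmul_zero]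
  · rw [hw, map_nsmul, add_nsmul, one_nsmul, mul_comm, mul_nsmul', hQ, nsmul_zero, add_zero]

/-- A group with a surjection with finite kernel to a group with `p`-torsion has `p`-torsion. -/
theorem exists_tors {A B : Type*} [AddCommGroup A] [AddCommGroup B] {p : ℕ} (hp : p.Prime)
    (ψ : B →+ A) (hψ : Surjective ψ) (hker : Finite ψ.ker) {a : A} (ha : a ≠ 0) (hpa : p • a = 0) :
    ∃ b : B, b ≠ 0 ∧ p • b = 0 := by
  obtain ⟨b, rfl⟩ := hψ a
  set e := AddMonoid.exponent ψ.ker with he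
  have he0 : e ≠ 0 := AddMonoid.exponent_ne_zero_of_finite
  have h1 : ψ (p • b) = 0 := by rw [map_nsmul, hpa]
  have h2 : e • (p • b) = 0 := by
    have := AddMonoid.exponent_nsmul_eq_zero (⟨p • b, h1⟩ : ψ.ker)
    exact congrArg Subtype.val this
  have h3 : IsOfFinAddOrder b := by
    rw [isOfFinAddOrder_iff_nsmul_eq_zero]
    exact ⟨e * p, Nat.mul_pos (Nat.pos_of_ne_zero he0) hp.pos, by rw [mul_nsmul', h2]⟩
  have h4 : 0 < addOrderOf b := h3.addOrderOf_pos
  have : Fact p.Prime := ⟨hp⟩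
  have h5 : addOrderOf (ψ b) = p := addOrderOf_eq_prime hpa ha
  have h6 : p ∣ addOrderOf b := by
    rw [← h5]
    exact addOrderOf_map_dvd ψ b
  obtain ⟨q, hq⟩ := h6
  have hq0 : 0 < q := by
    rcases Nat.eq_zero_or_pos q with h | h
    · rw [h, mul_zero] at hq
      omega
    · exact h
  refine ⟨q • b, ?_, ?_⟩
  · intro h
    have := addOrderOf_le_of_nsmul_eq_zero hq0 h
    rw [hq] at this
    have h7 := hp.two_le
    nlinarith
  · rw [← mul_nsmul', ← hq, addOrderOf_nsmul_eq_zero]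

section

variable {G : Type*} [Group G]

/-- The stabilizer of an element. -/
def stab {M : Type*} [AddCommGroup M] (μ : G →* AddMonoid.End M) (m : M) : Subgroup G where
  carrier := {g | μ g m = m}
  one_mem' := by
    change μ 1 m = m
    rw [map_one]
    rfl
  mul_mem' := by
    intro g h hg hh
    change μ (g * h) m = m
    rw [map_mul]
    change μ g (μ h m) = m
    rw [show μ h m = m from hh]
    exact hg
  inv_mem' := by
    intro g hg
    change μ g⁻¹ m = m
    have h1 : μ g⁻¹ (μ g m) = m := by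
      have : μ (g⁻¹ * g) m = μ g⁻¹ (μ g m) := by
        rw [map_mul]
        rfl
      rw [← this, inv_mul_cancel, map_one]
      rfl
    rwa [show μ g m = m from hg] at h1

theorem isOpen_of_hom [TopologicalSpace G] [IsTopologicalGroup G] {S X M : Type*}
    [AddCommGroup S] [AddCommGroup X] [AddCommGroup M] {τ : G →* AddMonoid.End S}
    {ξ : G →* AddMonoid.End X} {μ : G →* AddMonoid.End M} {i : X →+ S} {f : X →+ M}
    (hi : Injective i) (hf : Surjective f) (hie : ∀ g x, i (ξ g x) = τ g (i x))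
    (hfe : ∀ g x, f (ξ g x) = μ g (f x)) (hτ : ∀ s : S, IsOpen {g : G | τ g s = s}) (m : M) :
    IsOpen {g : G | μ g m = m} := by
  obtain ⟨x, rfl⟩ := hf m
  have key : stab τ (i x) ≤ stab μ (f x) := by
    intro g hg
    change μ g (f x) = f x
    have : i (ξ g x) = i x := by
      rw [hie]
      exact hg
    rw [← hfe, hi this]
  exact Subgroup.isOpen_mono key (hτ (i x))

variable (P : ∀ (M : Type u) [AddCommGroup M], (G →* AddMonoid.End M) → Prop) (c : Prop)

/-- `c` implies `P M`, and `P M` implies `c` if `M` is not zero. -/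
def Rel (M : Type u) [AddCommGroup M] (μ : G →* AddMonoid.End M) : Prop :=
  (c → P M μ) ∧ (Nontrivial M → P M μ → c)

/-- The relation holds for all subquotients of `S`. -/
def AllQ (S : Type u) [AddCommGroup S] (τ : G →* AddMonoid.End S) : Prop :=
  ∀ (X M : Type u) [AddCommGroup X] [AddCommGroup M] (ξ : G →* AddMonoid.End X)
    (μ : G →* AddMonoid.End M) (i : X →+ S) (f : X →+ M), Injective i → Surjective f →
    (∀ g x, i (ξ g x) = τ g (i x)) → (∀ g x, f (ξ g x) = μ g (f x)) → Rel P c M μ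

variable {P c}

theorem AllQ.of_inj {S S' : Type u} [AddCommGroup S] [AddCommGroup S']
    {τ : G →* AddMonoid.End S} {τ' : G →* AddMonoid.End S'} (h : AllQ P c S τ) (j : S' →+ S)
    (hj : Injective j) (hje : ∀ g x, j (τ' g x) = τ g (j x)) : AllQ P c S' τ' := by
  intro X M _ _ ξ μ i f hi hf hie hfe
  refine h X M ξ μ (j.comp i) f (hj.comp hi) hf (fun g x => ?_) hfe
  simp only [AddMonoidHom.comp_apply]
  rw [hie, hje]

theorem AllQ.ext [TopologicalSpace G] [IsTopologicalGroup G] {p : ℕ}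
    (hiso : ∀ (M N : Type u) [AddCommGroup M] [AddCommGroup N] (ρ : G →* AddMonoid.End M)
      (σ : G →* AddMonoid.End N), Iso ρ σ → P M ρ → P N σ)
    (hsub : ∀ (M : Type u) [AddCommGroup M] [Finite M] (ρ : G →* AddMonoid.End M)
      (N : AddSubgroup M) (hN : ∀ g, ∀ x ∈ N, ρ g x ∈ N),
      (∀ x : M, IsOpen {g : G | ρ g x = x}) → P M ρ → P N (subRep ρ N hN))
    (hext : ∀ (M : Type u) [AddCommGroup M] [Finite M] (ρ : G →* AddMonoid.End M)
      (N : AddSubgroup M) (hN : ∀ g, ∀ x ∈ N, ρ g x ∈ N),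
      (∀ x : M, IsOpen {g : G | ρ g x = x}) → (∃ k : ℕ, ∀ x : M, p ^ k • x = 0) →
      P N (subRep ρ N hN) → P (M ⧸ N) (quoRep ρ N hN) → P M ρ)
    {S : Type u} [AddCommGroup S] [Finite S] {τ : G →* AddMonoid.End S}
    (hτ : ∀ s : S, IsOpen {g : G | τ g s = s}) (hk : ∃ k : ℕ, ∀ s : S, p ^ k • s = 0)
    (S₁ : AddSubgroup S) (hS₁ : ∀ g, ∀ x ∈ S₁, τ g x ∈ S₁)
    (h1 : AllQ P c S₁ (subRep τ S₁ hS₁)) (h2 : AllQ P c (S ⧸ S₁) (quoRep τ S₁ hS₁)) :
    AllQ P c S τ := by
  intro X M _ _ ξ μ i f hi hf hie hfe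
  have : Finite X := Finite.of_injective i hi
  have : Finite M := Finite.of_surjective f hf
  have hμ : ∀ m : M, IsOpen {g : G | μ g m = m} := isOpen_of_hom hi hf hie hfe hτ
  have hkM : ∃ k : ℕ, ∀ m : M, p ^ k • m = 0 := by
    obtain ⟨k, hk⟩ := hk
    refine ⟨k, fun m => ?_⟩
    obtain ⟨x, rfl⟩ := hf m
    have : p ^ k • x = 0 := hi (by rw [map_nsmul, hk, map_zero])
    rw [← map_nsmul, this, map_zero]
  -- the two pieces
  let X₁ : AddSubgroup X := S₁.comap i
  have hX₁ : ∀ g, ∀ x ∈ X₁, ξ g x ∈ X₁ := by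
    intro g x hx
    change i (ξ g x) ∈ S₁
    rw [hie]
    exact hS₁ g _ hx
  let M₁ : AddSubgroup M := X₁.map f
  have hM₁ : ∀ g, ∀ x ∈ M₁, μ g x ∈ M₁ := by
    rintro g _ ⟨x, hx, rfl⟩
    exact ⟨ξ g x, hX₁ g x hx, hfe g x⟩
  have r1 : Rel P c M₁ (subRep μ M₁ hM₁) := by
    refine h1 X₁ M₁ (subRep ξ X₁ hX₁) (subRep μ M₁ hM₁)
      ((i.comp X₁.subtype).codRestrict S₁ (fun x => x.2))
      ((f.comp X₁.subtype).codRestrict M₁ (fun x => ⟨x, x.2, rfl⟩)) ?_ ?_ ?_ ?_
    · intro x y hxy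
      exact Subtype.ext (hi (congrArg Subtype.val hxy))
    · rintro ⟨_, x, hx, rfl⟩
      exact ⟨⟨x, hx⟩, rfl⟩
    · intro g x
      exact Subtype.ext (hie g x)
    · intro g x
      exact Subtype.ext (hfe g x)
  have r2 : Rel P c (M ⧸ M₁) (quoRep μ M₁ hM₁) := by
    refine h2 (X ⧸ X₁) (M ⧸ M₁) (quoRep ξ X₁ hX₁) (quoRep μ M₁ hM₁)
      (QuotientAddGroup.map X₁ S₁ i le_rfl)
      (QuotientAddGroup.map X₁ M₁ f (AddSubgroup.le_comap_map f X₁)) ?_ ?_ ?_ ?_
    · rw [injective_iff_map_eq_zero]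
      intro x
      induction x using QuotientAddGroup.induction_on with
      | H x =>
        intro hx
        change ((i x : S) : S ⧸ S₁) = 0 at hx
        rw [QuotientAddGroup.eq_zero_iff] at hx
        exact (QuotientAddGroup.eq_zero_iff x).2 hx
    · intro m
      induction m using QuotientAddGroup.induction_on with
      | H m =>
        obtain ⟨x, rfl⟩ := hf m
        exact ⟨(x : X ⧸ X₁), rfl⟩
    · intro g x
      induction x using QuotientAddGroup.induction_on with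
      | H x =>
        change ((i (ξ g x) : S) : S ⧸ S₁) = ((τ g (i x) : S) : S ⧸ S₁)
        rw [hie]
    · intro g x
      induction x using QuotientAddGroup.induction_on with
      | H x =>
        change ((f (ξ g x) : M) : M ⧸ M₁) = ((μ g (f x) : M) : M ⧸ M₁)
        rw [hfe]
  refine ⟨fun hc => hext M μ M₁ hM₁ hμ hkM (r1.1 hc) (r2.1 hc), fun hn hP => ?_⟩
  rcases subsingleton_or_nontrivial M₁ with h0 | h0
  · have hbot : M₁ = ⊥ := (AddSubgroup.eq_bot_iff_forall _).2 fun x hx =>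
      congrArg Subtype.val (Subsingleton.elim (⟨x, hx⟩ : M₁) 0)
    have hinj : Injective (QuotientAddGroup.mk' M₁) := by
      rw [injective_iff_map_eq_zero]
      intro x hx
      have : x ∈ M₁ := (QuotientAddGroup.eq_zero_iff x).1 hx
      rw [hbot] at this
      exact this
    have hbij : Bijective (QuotientAddGroup.mk' M₁) := ⟨hinj, QuotientAddGroup.mk'_surjective M₁⟩
    refine r2.2 hinj.nontrivial (hiso M (M ⧸ M₁) μ (quoRep μ M₁ hM₁) ?_ hP)
    exact ⟨AddEquiv.ofBijective (QuotientAddGroup.mk' M₁) hbij, fun g m => rfl⟩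
  · exact r1.2 h0 (hsub M μ M₁ hM₁ hμ hP)

/-- Modules of prime order. -/
theorem AllQ.prime [TopologicalSpace G] {p : ℕ} (hp : p.Prime)
    (hiso : ∀ (M N : Type u) [AddCommGroup M] [AddCommGroup N] (ρ : G →* AddMonoid.End M)
      (σ : G →* AddMonoid.End N), Iso ρ σ → P M ρ → P N σ)
    (hz : c → ∀ (M : Type u) [AddCommGroup M] (μ : G →* AddMonoid.End M), Subsingleton M → P M μ)
    {S : Type u} [AddCommGroup S] {τ : G →* AddMonoid.End S} (hS : Nat.card S = p)
    (hc : P S τ ↔ c) : AllQ P c S τ := by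
  intro X M _ _ ξ μ i f hi hf hie hfe
  have : Finite S := Nat.finite_of_card_ne_zero (by rw [hS]; exact hp.ne_zero)
  have : Finite X := Finite.of_injective i hi
  have : Finite M := Finite.of_surjective f hf
  have h1 : Nat.card X ∣ p := by
    rw [← hS]
    exact AddSubgroup.card_dvd_of_injective i hi
  rcases subsingleton_or_nontrivial M with h0 | h0
  · exact ⟨fun hc' => hz hc' M μ h0, fun hn => absurd hn (not_nontrivial_iff_subsingleton.2 h0)⟩
  · have h2 : 1 < Nat.card M := Finite.one_lt_card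
    have h3 : Nat.card M ≤ Nat.card X := Nat.card_le_card_of_surjective f hf
    have h4 : Nat.card X = p := by
      rcases (Nat.dvd_prime hp).1 h1 with h | h
      · omega
      · exact h
    have hib : Bijective i := hi.bijective_of_nat_card_le (by rw [h4, hS])
    have h5 : Nat.card M ∣ p := by
      rw [← h4]
      exact AddSubgroup.card_dvd_of_surjective f hf
    have h6 : Nat.card M = p := by
      rcases (Nat.dvd_prime hp).1 h5 with h | h
      · omega
      · exact h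
    have hfb : Bijective f := hf.bijective_of_nat_card_le (by rw [h4, h6])
    have e1 : Iso ξ τ := ⟨AddEquiv.ofBijective i hib, fun g x => hie g x⟩
    have e2 : Iso ξ μ := ⟨AddEquiv.ofBijective f hfb, fun g x => hfe g x⟩
    have e1' : Iso τ ξ := by
      obtain ⟨e, he⟩ := e1
      exact ⟨e.symm, fun g x => by rw [AddEquiv.symm_apply_eq, he, e.apply_symm_apply]⟩
    have e2' : Iso μ ξ := by
      obtain ⟨e, he⟩ := e2
      exact ⟨e.symm, fun g x => by rw [AddEquiv.symm_apply_eq, he, e.apply_symm_apply]⟩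
    exact ⟨fun h => hiso _ _ _ _ e2 (hiso _ _ _ _ e1' (hc.2 h)),
      fun _ h => hc.1 (hiso _ _ _ _ e1 (hiso _ _ _ _ e2' h))⟩

end

theorem devis {G : Type*} [Group G] [TopologicalSpace G] [IsTopologicalGroup G] {p : ℕ}
    [Fact p.Prime]
    (P : ∀ (M : Type u) [AddCommGroup M], (G →* AddMonoid.End M) → Prop)
    (hiso : ∀ (M N : Type u) [AddCommGroup M] [AddCommGroup N] (ρ : G →* AddMonoid.End M)
      (σ : G →* AddMonoid.End N), Iso ρ σ → P M ρ → P N σ)
    (hsub : ∀ (M : Type u) [AddCommGroup M] [Finite M] (ρ : G →* AddMonoid.End M)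
      (N : AddSubgroup M) (hN : ∀ g, ∀ x ∈ N, ρ g x ∈ N),
      (∀ x : M, IsOpen {g : G | ρ g x = x}) → P M ρ → P N (subRep ρ N hN))
    (hext : ∀ (M : Type u) [AddCommGroup M] [Finite M] (ρ : G →* AddMonoid.End M)
      (N : AddSubgroup M) (hN : ∀ g, ∀ x ∈ N, ρ g x ∈ N),
      (∀ x : M, IsOpen {g : G | ρ g x = x}) → (∃ k : ℕ, ∀ x : M, p ^ k • x = 0) →
      P N (subRep ρ N hN) → P (M ⧸ N) (quoRep ρ N hN) → P M ρ)
    {A B : Type u} [AddCommGroup A] [AddCommGroup B] (ρ : G →* AddMonoid.End A)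
    (σ : G →* AddMonoid.End B) (hρ : ∀ x : A, IsOpen {g : G | ρ g x = x})
    (_hσ : ∀ x : B, IsOpen {g : G | σ g x = x}) (φ : A →+ B) (hφ : Function.Surjective φ)
    (hφk : Finite φ.ker) (hφe : ∀ g x, φ (ρ g x) = σ g (φ x)) (ψ : B →+ A)
    (hψ : Function.Surjective ψ) (hψk : Finite ψ.ker)
    (A₁ : AddSubgroup A) (hA₁ : ∀ x, x ∈ A₁ ↔ p • x = 0) (hA₁s : ∀ g, ∀ x ∈ A₁, ρ g x ∈ A₁)
    (B₁ : AddSubgroup B) (hB₁ : ∀ x, x ∈ B₁ ↔ p • x = 0) (hB₁s : ∀ g, ∀ x ∈ B₁, σ g x ∈ B₁)
    (T : AddSubgroup A) (hT : T ≤ A₁) (hTs : ∀ g, ∀ x ∈ T, ρ g x ∈ T) (hTc : Nat.card T = p)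
    (hQc : Nat.card (A₁ ⧸ T.addSubgroupOf A₁) = p)
    (hsw : P T (subRep ρ T hTs) ↔
      P (A₁ ⧸ T.addSubgroupOf A₁) (quoRep (subRep ρ A₁ hA₁s) (T.addSubgroupOf A₁)
        (fun g x hx => hTs g x hx))) :
    P A₁ (subRep ρ A₁ hA₁s) ↔ P B₁ (subRep σ B₁ hB₁s) := by
  have hp : p.Prime := Fact.out
  obtain ⟨c, hc⟩ : ∃ c : Prop, c = P T (subRep ρ T hTs) := ⟨_, rfl⟩
  have hfT : Finite T := Nat.finite_of_card_ne_zero (by rw [hTc]; exact hp.ne_zero)
  have hsubT : ∀ H : AddSubgroup A, ∀ hH : ∀ g, ∀ x ∈ H, ρ g x ∈ H,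
      ∀ x : H, IsOpen {g : G | subRep ρ H hH g x = x} := by
    intro H hH x
    have := hρ (x : A)
    convert this using 1
    ext g
    exact Subtype.ext_iff
  -- zero modules
  have hz : c → ∀ (M : Type u) [AddCommGroup M] (μ : G →* AddMonoid.End M),
      Subsingleton M → P M μ := by
    intro h M _ μ hM
    rw [hc] at h
    have h1 := hsub T (subRep ρ T hTs) ⊥ (fun g x hx => by
      rw [AddSubgroup.mem_bot] at hx ⊢
      rw [hx, map_zero]) (hsubT T hTs) h
    refine hiso _ _ _ _ ⟨AddEquiv.ofBijective (0 : (⊥ : AddSubgroup T) →+ M)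
      ⟨injective_of_subsingleton _, fun m => ⟨0, Subsingleton.elim _ _⟩⟩,
      fun g m => Subsingleton.elim _ _⟩ h1
  -- the torsion
  have hTq : AllQ P c T (subRep ρ T hTs) := AllQ.prime hp hiso hz hTc (by rw [hc])
  have hQq : AllQ P c (A₁ ⧸ T.addSubgroupOf A₁) (quoRep (subRep ρ A₁ hA₁s)
      (T.addSubgroupOf A₁) (fun g x hx => hTs g x hx)) :=
    AllQ.prime hp hiso hz hQc (by rw [hc, hsw])
  let iT : (T.addSubgroupOf A₁) →+ T :=
    ((A₁.subtype).comp (T.addSubgroupOf A₁).subtype).codRestrict T (fun x => x.2)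
  have hiT : Injective iT := by
    intro x y hxy
    have h1 : ((x : A₁) : A) = ((y : A₁) : A) := congrArg (Subtype.val : T → A) hxy
    exact Subtype.ext (Subtype.ext h1)
  have hfA₁ : Finite A₁ := by
    have h1 : Finite (T.addSubgroupOf A₁) := Finite.of_injective iT hiT
    have h2 : Finite (A₁ ⧸ T.addSubgroupOf A₁) :=
      Nat.finite_of_card_ne_zero (by rw [hQc]; exact hp.ne_zero)
    exact Finite.of_equiv _
      (AddSubgroup.addGroupEquivQuotientProdAddSubgroup (s := T.addSubgroupOf A₁)).symm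
  have hA₁q : AllQ P c A₁ (subRep ρ A₁ hA₁s) := by
    refine AllQ.ext hiso hsub hext (hsubT A₁ hA₁s) ⟨1, fun s => ?_⟩ (T.addSubgroupOf A₁)
      (fun g x hx => hTs g x hx) ?_ hQq
    · rw [pow_one]
      exact Subtype.ext ((hA₁ _).1 s.2)
    · exact hTq.of_inj iT hiT (fun g x => rfl)
  -- the higher torsion
  let Ak : ℕ → AddSubgroup A := fun k => (nsmulAddMonoidHom (p ^ k) : A →+ A).ker
  have hAk : ∀ k x, x ∈ Ak k ↔ p ^ k • x = 0 := fun k x => Iff.rfl
  have hAks : ∀ k, ∀ g, ∀ x ∈ Ak k, ρ g x ∈ Ak k := by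
    intro k g x hx
    rw [hAk] at hx ⊢
    rw [← map_nsmul, hx, map_zero]
  have hAkq : ∀ k, Finite (Ak k) ∧ AllQ P c (Ak k) (subRep ρ (Ak k) (hAks k)) := by
    intro k
    induction k with
    | zero =>
      have hs : Subsingleton (Ak 0) := by
        refine ⟨fun x y => Subtype.ext ?_⟩
        have h1 := (hAk 0 x).1 x.2
        have h2 := (hAk 0 y).1 y.2
        rw [pow_zero, one_nsmul] at h1 h2
        rw [h1, h2]
      refine ⟨inferInstance, ?_⟩
      intro X M _ _ ξ μ i f hi hf hie hfe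
      have hX : Subsingleton X := hi.subsingleton
      have hM : Subsingleton M := hf.subsingleton
      exact ⟨fun h => hz h M μ hM, fun hn => absurd hn (not_nontrivial_iff_subsingleton.2 hM)⟩
    | succ k ih =>
      obtain ⟨ihf, ihq⟩ := ih
      let S₁ : AddSubgroup (Ak (k + 1)) := (Ak k).addSubgroupOf (Ak (k + 1))
      have hS₁ : ∀ g, ∀ x ∈ S₁, subRep ρ (Ak (k + 1)) (hAks (k + 1)) g x ∈ S₁ :=
        fun g x hx => hAks k g _ hx
      let j₁ : S₁ →+ Ak k := ((Ak (k + 1)).subtype.comp S₁.subtype).codRestrict (Ak k) (fun x => x.2)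
      have hj₁ : Injective j₁ := by
        intro x y hxy
        have h1 : ((x : Ak (k + 1)) : A) = ((y : Ak (k + 1)) : A) :=
          congrArg (Subtype.val : Ak k → A) hxy
        exact Subtype.ext (Subtype.ext h1)
      let m : Ak (k + 1) →+ A₁ :=
        ((nsmulAddMonoidHom (p ^ k) : A →+ A).comp (Ak (k + 1)).subtype).codRestrict A₁ (fun x => by
          rw [hA₁]
          change p • (p ^ k • (x : A)) = 0
          rw [← mul_nsmul', ← pow_succ']
          exact (hAk _ _).1 x.2)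
      have hm : ∀ x : Ak (k + 1), ((m x : A₁) : A) = p ^ k • (x : A) := fun x => rfl
      have hle : S₁ ≤ m.ker := by
        intro x hx
        rw [AddMonoidHom.mem_ker]
        exact Subtype.ext hx
      let j₂ : (Ak (k + 1) ⧸ S₁) →+ A₁ := QuotientAddGroup.lift S₁ m hle
      have hj₂ : Injective j₂ := by
        rw [injective_iff_map_eq_zero]
        intro x
        induction x using QuotientAddGroup.induction_on with
        | H x =>
          intro hx
          change m x = 0 at hx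
          rw [QuotientAddGroup.eq_zero_iff]
          exact congrArg Subtype.val hx
      have hf1 : Finite S₁ := Finite.of_injective j₁ hj₁
      have hf2 : Finite (Ak (k + 1) ⧸ S₁) := Finite.of_injective j₂ hj₂
      have hf : Finite (Ak (k + 1)) := Finite.of_equiv _
        (AddSubgroup.addGroupEquivQuotientProdAddSubgroup (s := S₁)).symm
      refine ⟨hf, ?_⟩
      refine AllQ.ext hiso hsub hext (hsubT _ _) ⟨k + 1, fun s => Subtype.ext s.2⟩ S₁ hS₁ ?_ ?_
      · exact ihq.of_inj j₁ hj₁ (fun g x => rfl)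
      · refine hA₁q.of_inj j₂ hj₂ (fun g x => ?_)
        induction x using QuotientAddGroup.induction_on with
        | H x =>
          apply Subtype.ext
          change p ^ k • ρ g (x : A) = ρ g (p ^ k • (x : A))
          rw [map_nsmul]
  -- the relation for both
  have rA : Rel P c A₁ (subRep ρ A₁ hA₁s) :=
    hA₁q A₁ A₁ (subRep ρ A₁ hA₁s) (subRep ρ A₁ hA₁s) (AddMonoidHom.id _) (AddMonoidHom.id _)
      injective_id surjective_id (fun _ _ => rfl) (fun _ _ => rfl)
  have rB : Rel P c B₁ (subRep σ B₁ hB₁s) := by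
    obtain ⟨k, hk⟩ := exists_primary hp φ hφ hφk
    let D : AddSubgroup A := Ak k ⊓ B₁.comap φ
    have hD : ∀ g, ∀ x ∈ D, ρ g x ∈ D := by
      intro g x hx
      refine ⟨hAks k g x hx.1, ?_⟩
      change φ (ρ g x) ∈ B₁
      rw [hφe]
      exact hB₁s g _ hx.2
    refine (hAkq k).2 D B₁ (subRep ρ D hD) (subRep σ B₁ hB₁s)
      (D.subtype.codRestrict (Ak k) (fun x => x.2.1))
      ((φ.comp D.subtype).codRestrict B₁ (fun x => x.2.2)) ?_ ?_ ?_ ?_
    · intro x y hxy
      have h1 : (x : A) = (y : A) := congrArg (Subtype.val : Ak k → A) hxy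
      exact Subtype.ext h1
    · rintro ⟨b, hb⟩
      obtain ⟨a, ha1, ha2⟩ := hk b ((hB₁ b).1 hb)
      exact ⟨⟨a, (hAk k a).2 ha1, by change φ a ∈ B₁; rw [ha2]; exact hb⟩, Subtype.ext ha2⟩
    · intro g x
      rfl
    · intro g x
      exact Subtype.ext (hφe g x)
  have hTn : Nontrivial T := by
    rw [← Finite.one_lt_card_iff_nontrivial, hTc]
    exact hp.one_lt
  obtain ⟨⟨t, htT⟩, ht0⟩ := exists_ne (0 : T)
  have ht : t ≠ 0 := fun h => ht0 (Subtype.ext h)
  have hAn : Nontrivial A₁ := ⟨⟨⟨t, hT htT⟩, 0, fun h => ht (congrArg Subtype.val h)⟩⟩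
  have hBn : Nontrivial B₁ := by
    obtain ⟨b, hb0, hb⟩ := exists_tors hp ψ hψ hψk ht ((hA₁ t).1 (hT htT))
    exact ⟨⟨⟨b, (hB₁ b).2 hb⟩, 0, fun h => hb0 (congrArg Subtype.val h)⟩⟩
  exact ⟨fun h => rB.1 (rA.2 hAn h), fun h => rA.1 (rB.2 hBn h)⟩

end Pool.Agent.Helper69.FS
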