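import Pool.Agent.Helper69.FS.Star
import Pool.Agent.Helper69.FS.Devis
import Pool.Agent.Helper58.FS.CS
import Pool.Agent.Helper21.EC.Gal

/-! D2, D9 of the project of helper58 on MP_b529ab_nt: almost all primes are unramified in the
field generated by all points of `p`-power order. -/

set_option autoImplicit false

open scoped NumberField Pointwise
open WeierstrassCurve

namespace Pool.Agent.Helper69.FS

open Pool.Agent.Helper58.FS Pool.Agent.Helper58.IQ Pool.Agent.Helper21.EC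

section

variable {F : Type*} [Field F] [DecidableEq F] (V : Affine F) (h1 : V.a₁ = 0) (h2 : V.a₂ = 0)
  (h3 : V.a₃ = 0)

include h1 h2 h3

omit [DecidableEq F] in
theorem short_eqn {x y : F} (h : V.Nonsingular x y) : y ^ 2 = x ^ 3 + V.a₄ * x + V.a₆ := by
  have e := (Affine.equation_iff ..).1 h.1
  rw [h1, h2, h3] at e
  linear_combination e

theorem short_add {x y a b : F} (h : V.Nonsingular x y) (h' : V.Nonsingular a b) (hxa : x ≠ a) :
    ∃ hh, Affine.Point.some x y h + Affine.Point.some a b h' =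
      Affine.Point.some (((y - b) / (x - a)) ^ 2 - x - a)
        (-(y + (y - b) / (x - a) * ((((y - b) / (x - a)) ^ 2 - x - a) - x))) hh := by
  have e0 : V.slope x a y b = (y - b) / (x - a) := Affine.slope_of_X_ne hxa
  have e1 : V.addX x a (V.slope x a y b) = ((y - b) / (x - a)) ^ 2 - x - a := by
    rw [Affine.addX, e0, h1, h2]
    ring
  have e2 : V.addY x a y (V.slope x a y b) =
      -(y + (y - b) / (x - a) * ((((y - b) / (x - a)) ^ 2 - x - a) - x)) := by
    rw [Affine.addY, Affine.negAddY, Affine.negY, e1, e0, h1, h3]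
    ring
  have hh := Affine.nonsingular_add h h' fun hxy => hxa hxy.left
  rw [Affine.Point.add_of_X_ne hxa]
  rw [e1, e2] at hh
  refine ⟨hh, ?_⟩
  simp only [Affine.Point.some.injEq]
  exact ⟨e1, e2⟩

theorem core (A : ValuationSubring F) (hc : V.a₄ ∈ A) (hd : V.a₆ ∈ A)
    (hΔ : (4 * V.a₄ ^ 3 + 27 * V.a₆ ^ 2)⁻¹ ∈ A) (hΔ0 : 4 * V.a₄ ^ 3 + 27 * V.a₆ ^ 2 ≠ 0)
    (h2' : (2 : F)⁻¹ ∈ A) (h20 : (2 : F) ≠ 0) {p : ℕ} (hp : p.Prime) (hp2 : p ≠ 2)
    (t1 : ∀ a b h, p • (Affine.Point.some a b h : V.Point) = 0 →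
      a ∈ A ∧ b ∈ A ∧ (b ≠ 0 → b⁻¹ ∈ A))
    (t2 : ∀ a b h a' b' h', p • (Affine.Point.some a b h : V.Point) = 0 →
      p • (Affine.Point.some a' b' h' : V.Point) = 0 →
      (a ≠ a' → (a - a')⁻¹ ∈ A) ∧ (b ≠ b' → (b - b')⁻¹ ∈ A))
    {x y x₂ y₂ : F} (h : V.Nonsingular x y) (h' : V.Nonsingular x₂ y₂) (hC : Cong A x y x₂ y₂)
    (T : V.Point) (hT : T ≠ 0) (hpT : p • T = 0)
    (hQ : Affine.Point.some x₂ y₂ h' = Affine.Point.some x y h + T) : False := by
  have hun : ∀ z : F, z ≠ 0 → z⁻¹ ∈ A → ¬ A.valuation z < 1 := by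
    intro z hz hi hv
    have h4 : A.valuation (z⁻¹ * z) < 1 := by
      rw [map_mul]
      exact mul_lt_one_of_nonneg_of_lt_one_right
        ((ValuationSubring.valuation_le_one_iff A z⁻¹).2 hi) zero_le hv
    rw [inv_mul_cancel₀ hz, map_one] at h4
    exact lt_irrefl _ h4
  rcases T with _ | ⟨a, b, hab⟩
  · exact hT rfl
  have hneg : ∀ u v : F, V.negY u v = -v := by
    intro u v
    rw [Affine.negY, h1, h3]
    ring
  obtain ⟨haA, hbA, hbi⟩ := t1 a b hab hpT
  have hb0 : b ≠ 0 := by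
    rintro rfl
    have e2 : (2 : ℕ) • (Affine.Point.some a 0 hab : V.Point) = 0 := by
      rw [two_nsmul]
      exact Affine.Point.add_self_of_Y_eq (by rw [hneg, neg_zero])
    obtain ⟨k, hk⟩ := hp.odd_of_ne_two hp2
    apply hT
    have e3 : p • (Affine.Point.some a 0 hab : V.Point) = Affine.Point.some a 0 hab := by
      rw [hk, add_nsmul, one_nsmul, mul_comm, mul_nsmul', e2, nsmul_zero, zero_add]
    rw [← e3]
    exact hpT
  have hbi' := hbi hb0
  have eU := short_eqn V h1 h2 h3 h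
  have eT := short_eqn V h1 h2 h3 hab
  by_cases hxa : x = a
  · subst hxa
    have hyb : (y - b) * (y + b) = 0 := by linear_combination eU - eT
    rcases mul_eq_zero.1 hyb with h4 | h4
    · have hy : y = b := sub_eq_zero.1 h4
      subst hy
      have hpQ : p • (Affine.Point.some x y h : V.Point) = 0 := hpT
      have hpQ2 : p • (Affine.Point.some x₂ y₂ h' : V.Point) = 0 := by
        rw [hQ, nsmul_add, hpT, add_zero]
      obtain ⟨c1, c2⟩ := t2 x y h x₂ y₂ h' hpQ hpQ2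
      rcases hC with ⟨hC, -⟩ | ⟨-, -, hv1, hv2⟩
      · exact hC haA
      · by_cases hx : x = x₂
        · by_cases hy : y = y₂
          · subst hx hy
            apply hT
            have : Affine.Point.some x y h + (Affine.Point.some x y hab : V.Point) =
                Affine.Point.some x y h + 0 := by rw [add_zero]; exact hQ.symm
            exact add_left_cancel this
          · exact hun _ (sub_ne_zero.2 hy) (c2 hy) hv2
        · exact hun _ (sub_ne_zero.2 hx) (c1 hx) hv1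
    · have hy : y = V.negY x b := by rw [hneg]; exact eq_neg_of_add_eq_zero_left h4
      rw [Affine.Point.add_of_Y_eq rfl hy] at hQ
      cases hQ
  · obtain ⟨hh, hadd⟩ := short_add V h1 h2 h3 h hab hxa
    rw [hadd] at hQ
    simp only [Affine.Point.some.injEq] at hQ
    obtain ⟨q1, q2⟩ := hQ
    refine star A hc hd hΔ hΔ0 h2' h20 eU eT haA hbA hbi' hb0 hxa q1 ?_ hC
    rw [q2, ← q1]

end

section

variable {K : Type*} [Field K] [NumberField K]

/-- The `x` coordinate. -/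
noncomputable def xc (W : WeierstrassCurve K) : Pts W → Kb K
  | 0 => 0
  | .some x _ _ => x

/-- The `y` coordinate. -/
noncomputable def yc (W : WeierstrassCurve K) : Pts W → Kb K
  | 0 => 0
  | .some _ y _ => y

theorem finset_unit
    (hunit : ∀ z : Kb K, z ≠ 0 → ∃ N : ℕ, N ≠ 0 ∧ ∀ P : Ideal (𝓞 (Kb K)), P.IsPrime →
      (N : 𝓞 (Kb K)) ∉ P → ∃ s t : 𝓞 (Kb K), s ∉ P ∧ t ∉ P ∧ z = (s : Kb K) / t)
    (Z : Set (Kb K)) (hZ : Z.Finite) : ∃ N : ℕ, N ≠ 0 ∧ ∀ P : Ideal (𝓞 (Kb K)), P.IsPrime →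
      (N : 𝓞 (Kb K)) ∉ P → ∀ z ∈ Z, z ≠ 0 → ∃ s t : 𝓞 (Kb K), s ∉ P ∧ t ∉ P ∧
        z = (s : Kb K) / t := by
  induction Z, hZ using Set.Finite.induction_on with
  | empty => exact ⟨1, one_ne_zero, fun P _ _ z hz => absurd hz (Set.notMem_empty z)⟩
  | @insert z Z _ _ ih =>
    obtain ⟨N, hN, h⟩ := ih
    by_cases hz : z = 0
    · refine ⟨N, hN, fun P hP hPN w hw hw0 => ?_⟩
      rcases hw with rfl | hw
      · exact absurd hz hw0
      · exact h P hP hPN w hw hw0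
    · obtain ⟨M, hM, h'⟩ := hunit z hz
      refine ⟨M * N, Nat.mul_ne_zero hM hN, fun P hP hPN w hw hw0 => ?_⟩
      rw [Nat.cast_mul] at hPN
      have hPM : (M : 𝓞 (Kb K)) ∉ P := fun h => hPN (P.mul_mem_right _ h)
      have hPN' : (N : 𝓞 (Kb K)) ∉ P := fun h => hPN (P.mul_mem_left _ h)
      rcases hw with rfl | hw
      · exact h' P hP hPM
      · exact h P hP hPN' w hw hw0

theorem nos_short
    (hval : ∀ P : Ideal (𝓞 (Kb K)), P.IsPrime → P ≠ ⊥ → ∃ A : ValuationSubring (Kb K),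
      (∀ x, x ∈ A ↔ ∃ s t : 𝓞 (Kb K), t ∉ P ∧ x = (s : Kb K) / t) ∧
      ∀ x, A.valuation x < 1 ↔ ∃ s t : 𝓞 (Kb K), s ∈ P ∧ t ∉ P ∧ x = (s : Kb K) / t)
    (hunit : ∀ z : Kb K, z ≠ 0 → ∃ N : ℕ, N ≠ 0 ∧ ∀ P : Ideal (𝓞 (Kb K)), P.IsPrime →
      (N : 𝓞 (Kb K)) ∉ P → ∃ s t : 𝓞 (Kb K), s ∉ P ∧ t ∉ P ∧ z = (s : Kb K) / t)
    (W : WeierstrassCurve K) (h1 : W.a₁ = 0) (h2 : W.a₂ = 0) (h3 : W.a₃ = 0) (hW : W.Δ ≠ 0)
    {p : ℕ} (hp : p.Prime) (hp2 : p ≠ 2) (hf : Finite (torp p W)) :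
    ∃ N : ℕ, N ≠ 0 ∧ ∀ P : Ideal (𝓞 (Kb K)), P.IsPrime → P ≠ ⊥ → (N : 𝓞 (Kb K)) ∉ P →
      ∀ g ∈ inert P, ∀ Q : Pts W, Q ∈ torInf p W → ptsRep W g Q = Q := by
  have b1 : (Affine.baseChange W (Kb K)).a₁ = 0 := by
    change algebraMap K (Kb K) W.a₁ = 0
    rw [h1, map_zero]
  have b2 : (Affine.baseChange W (Kb K)).a₂ = 0 := by
    change algebraMap K (Kb K) W.a₂ = 0
    rw [h2, map_zero]
  have b3 : (Affine.baseChange W (Kb K)).a₃ = 0 := by
    change algebraMap K (Kb K) W.a₃ = 0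
    rw [h3, map_zero]
  set c : Kb K := (Affine.baseChange W (Kb K)).a₄ with hcdef
  set d : Kb K := (Affine.baseChange W (Kb K)).a₆ with hddef
  have hD : W.Δ = -16 * (4 * W.a₄ ^ 3 + 27 * W.a₆ ^ 2) := by
    rw [WeierstrassCurve.Δ, WeierstrassCurve.b₂, WeierstrassCurve.b₄, WeierstrassCurve.b₆,
      WeierstrassCurve.b₈, h1, h2, h3]
    ring
  have hD0 : 4 * c ^ 3 + 27 * d ^ 2 ≠ 0 := by
    intro h
    apply hW
    rw [hD]
    have : algebraMap K (Kb K) (4 * W.a₄ ^ 3 + 27 * W.a₆ ^ 2) = 0 := by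
      rw [map_add, map_mul, map_mul, map_pow, map_pow, map_ofNat, map_ofNat]
      exact h
    rw [(map_eq_zero _).1 this, mul_zero]
  have h20 : (2 : Kb K) ≠ 0 := two_ne_zero
  -- the finite set of elements which should be units
  let Z : Set (Kb K) := {c, d, 4 * c ^ 3 + 27 * d ^ 2, 2} ∪
    ((Set.range fun T : torp p W => xc W T) ∪ (Set.range fun T : torp p W => yc W T)) ∪
    ((Set.range fun T : torp p W × torp p W => xc W T.1 - xc W T.2) ∪
      (Set.range fun T : torp p W × torp p W => yc W T.1 - yc W T.2))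
  have hZ : Z.Finite := by
    refine Set.Finite.union (Set.Finite.union ?_ ?_) ?_
    · exact Set.toFinite _
    · exact (Set.finite_range _).union (Set.finite_range _)
    · exact (Set.finite_range _).union (Set.finite_range _)
  obtain ⟨N, hN, hNP⟩ := finset_unit hunit Z hZ
  refine ⟨N, hN, fun P hP hP0 hPN g hg => ?_⟩
  obtain ⟨A, hA1, hA2⟩ := hval P hP hP0
  have hu := hNP P hP hPN
  have hZA : ∀ z ∈ Z, z ∈ A := by
    intro z hz
    by_cases hz0 : z = 0
    · rw [hz0]; exact A.zero_mem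
    · obtain ⟨s, t, _, ht, e⟩ := hu z hz hz0
      exact (hA1 z).2 ⟨s, t, ht, e⟩
  have hZi : ∀ z ∈ Z, z ≠ 0 → z⁻¹ ∈ A := by
    intro z hz hz0
    obtain ⟨s, t, hs, ht, e⟩ := hu z hz hz0
    exact (hA1 _).2 ⟨t, s, hs, by rw [e, inv_div]⟩
  -- membership in `Z`
  have zc : c ∈ Z := Or.inl (Or.inl (by simp))
  have zd : d ∈ Z := Or.inl (Or.inl (by simp))
  have zD : 4 * c ^ 3 + 27 * d ^ 2 ∈ Z := Or.inl (Or.inl (by simp))
  have z2 : (2 : Kb K) ∈ Z := Or.inl (Or.inl (by simp))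
  have t1 : ∀ a b h, p • (Affine.Point.some a b h : Pts W) = 0 →
      a ∈ A ∧ b ∈ A ∧ (b ≠ 0 → b⁻¹ ∈ A) := by
    intro a b h hT
    have za : a ∈ Z := Or.inl (Or.inr (Or.inl ⟨⟨.some a b h, hT⟩, rfl⟩))
    have zb : b ∈ Z := Or.inl (Or.inr (Or.inr ⟨⟨.some a b h, hT⟩, rfl⟩))
    exact ⟨hZA a za, hZA b zb, hZi b zb⟩
  have t2 : ∀ a b h a' b' h', p • (Affine.Point.some a b h : Pts W) = 0 →
      p • (Affine.Point.some a' b' h' : Pts W) = 0 →
      (a ≠ a' → (a - a')⁻¹ ∈ A) ∧ (b ≠ b' → (b - b')⁻¹ ∈ A) := by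
    intro a b h a' b' h' hT hT'
    have za : a - a' ∈ Z := Or.inr (Or.inl ⟨(⟨.some a b h, hT⟩, ⟨.some a' b' h', hT'⟩), rfl⟩)
    have zb : b - b' ∈ Z := Or.inr (Or.inr ⟨(⟨.some a b h, hT⟩, ⟨.some a' b' h', hT'⟩), rfl⟩)
    exact ⟨fun hne => hZi _ za (sub_ne_zero.2 hne), fun hne => hZi _ zb (sub_ne_zero.2 hne)⟩
  -- inertia
  have hin : ∀ g ∈ inert P, ∀ s : 𝓞 (Kb K), g • s - s ∈ P := fun g hg s => hg s
  have hco : ∀ (g : GK K) (s : 𝓞 (Kb K)), ((g • s : 𝓞 (Kb K)) : Kb K) = g (s : Kb K) :=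
    fun g s => rfl
  have hgA : ∀ g ∈ inert P, ∀ x ∈ A, g x ∈ A ∧ A.valuation (x - g x) < 1 := by
    intro g hg x hx
    obtain ⟨s, t, ht, rfl⟩ := (hA1 x).1 hx
    have hgt : g • t ∉ P := by
      intro h
      apply ht
      have := P.sub_mem h (hin g hg t)
      rwa [sub_sub_cancel] at this
    refine ⟨(hA1 _).2 ⟨g • s, g • t, hgt, by rw [map_div₀, hco, hco]⟩, ?_⟩
    rw [hA2]
    refine ⟨s * (g • t - t) - (g • s - s) * t, t * (g • t), ?_, ?_, ?_⟩
    · exact P.sub_mem (P.mul_mem_left _ (hin g hg t)) (P.mul_mem_right _ (hin g hg s))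
    · exact fun h => (hP.mem_or_mem h).elim ht hgt
    · have ht0 : (t : Kb K) ≠ 0 := by
        intro h
        apply ht
        have : t = 0 := by exact_mod_cast h
        rw [this]
        exact P.zero_mem
      have hgt0 : g (t : Kb K) ≠ 0 := by
        intro h
        exact ht0 ((map_eq_zero g).1 h)
      have e1 : ((s * (g • t - t) - (g • s - s) * t : 𝓞 (Kb K)) : Kb K) =
          s * (g (t : Kb K) - t) - (g (s : Kb K) - s) * t := rfl
      have e2 : ((t * (g • t) : 𝓞 (Kb K)) : Kb K) = t * g (t : Kb K) := rfl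
      rw [e1, e2, map_div₀]
      field_simp
      ring
  have hgnA : ∀ g ∈ inert P, ∀ x, x ∉ A → g x ∉ A := by
    intro g hg x hx h
    have h5 := (hgA g⁻¹ ((inert P).inv_mem hg) (g x) h).1
    have h6 : g⁻¹ (g x) = x := by
      change (g⁻¹ * g) x = x
      rw [inv_mul_cancel]
      rfl
    rw [h6] at h5
    exact hx h5
  -- the induction
  have main : ∀ n : ℕ, ∀ Q : Pts W, p ^ n • Q = 0 → ptsRep W g Q = Q := by
    intro n
    induction n with
    | zero =>
      intro Q hQ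
      rw [pow_zero, one_nsmul] at hQ
      rw [hQ, map_zero]
    | succ n ih =>
      intro Q hQ
      have h5 : ptsRep W g (p • Q) = p • Q := ih (p • Q) (by
        rw [← mul_nsmul', ← pow_succ]
        exact hQ)
      rw [map_nsmul] at h5
      by_contra hne
      have hT0 : ptsRep W g Q - Q ≠ 0 := sub_ne_zero.2 hne
      have hpT : p • (ptsRep W g Q - Q) = 0 := by
        rw [nsmul_sub, h5, sub_self]
      rcases Q with _ | ⟨x, y, h⟩
      · exact hne (map_zero (ptsRep W g))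
      · obtain ⟨h', e⟩ := ptsRep_some W g h
        refine core (Affine.baseChange W (Kb K)) b1 b2 b3 A (hZA c zc) (hZA d zd)
          (hZi _ zD hD0) hD0 (hZi 2 z2 h20) h20 hp hp2 t1 t2 h h' ?_
          (ptsRep W g (.some x y h) - .some x y h) hT0 hpT ?_
        · by_cases hx : x ∈ A
          · right
            have hy : y ∈ A := by
              have e6 := short_eqn (Affine.baseChange W (Kb K)) b1 b2 b3 h
              have e7 : y ^ 2 ∈ A := by
                rw [e6]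
                exact A.add_mem _ _ (A.add_mem _ _ (pow_mem hx 3)
                  (A.mul_mem _ _ (hZA c zc) hx)) (hZA d zd)
              rw [← ValuationSubring.valuation_le_one_iff] at e7 ⊢
              rw [map_pow] at e7
              exact (pow_le_one_iff (by norm_num)).1 e7
            exact ⟨hx, (hgA g hg x hx).1, (hgA g hg x hx).2, (hgA g hg y hy).2⟩
          · left
            exact ⟨hx, hgnA g hg x hx⟩
        · rw [← e]
          exact (add_sub_cancel _ _).symm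
  rintro Q ⟨n, hn⟩
  exact main n Q hn

/-- D2, from D1a and D1b. -/
theorem nos_of
    (hval : ∀ P : Ideal (𝓞 (Kb K)), P.IsPrime → P ≠ ⊥ → ∃ A : ValuationSubring (Kb K),
      (∀ x, x ∈ A ↔ ∃ s t : 𝓞 (Kb K), t ∉ P ∧ x = (s : Kb K) / t) ∧
      ∀ x, A.valuation x < 1 ↔ ∃ s t : 𝓞 (Kb K), s ∈ P ∧ t ∉ P ∧ x = (s : Kb K) / t)
    (hunit : ∀ z : Kb K, z ≠ 0 → ∃ N : ℕ, N ≠ 0 ∧ ∀ P : Ideal (𝓞 (Kb K)), P.IsPrime →
      (N : 𝓞 (Kb K)) ∉ P → ∃ s t : 𝓞 (Kb K), s ∉ P ∧ t ∉ P ∧ z = (s : Kb K) / t)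
    (W : WeierstrassCurve K) (hW : W.Δ ≠ 0) {p : ℕ}
    (hp : p.Prime) (hp2 : p ≠ 2) (hf : Finite (torp p W)) :
    ∃ N : ℕ, N ≠ 0 ∧ ∀ P : Ideal (𝓞 (Kb K)), P.IsPrime → P ≠ ⊥ → (N : 𝓞 (Kb K)) ∉ P →
      ∀ g ∈ inert P, ∀ Q : Pts W, Q ∈ torInf p W → ptsRep W g Q = Q := by
  haveI : Invertible (2 : K) := invertibleOfNonzero two_ne_zero
  haveI : Invertible (3 : K) := invertibleOfNonzero three_ne_zero
  obtain ⟨C, hC⟩ := W.exists_variableChange_isShortNF
  have hV : (C • W).Δ ≠ 0 := by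
    rw [variableChange_Δ]
    exact mul_ne_zero (pow_ne_zero _ (Units.ne_zero _)) hW
  have hfV : Finite (torp p (C • W)) := by
    refine Finite.of_injective (fun T : torp p (C • W) =>
      (⟨equivL W C T, by
        rw [mem_torp, ← map_nsmul, mem_torp.1 T.2, map_zero]⟩ : torp p W)) ?_
    intro T T' h
    exact Subtype.ext ((equivL W C).injective (congrArg Subtype.val h))
  obtain ⟨N, hN, h⟩ := nos_short hval hunit (C • W) hC.a₁ hC.a₂ hC.a₃ hV hp hp2 hfV
  refine ⟨N, hN, fun P hP hP0 hPN g hg Q hQ => ?_⟩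
  obtain ⟨n, hn⟩ := hQ
  have h1 := h P hP hP0 hPN g hg ((equivL W C).symm Q) ⟨n, by
    rw [← map_nsmul, hn, map_zero]⟩
  have h2 := equivL_gal W C g ((equivL W C).symm Q)
  rw [h1, AddEquiv.apply_symm_apply] at h2
  exact h2.symm

end

section

variable {K : Type*} [Field K] [NumberField K] {p : ℕ} [Fact p.Prime]

theorem finite_ker_pow {A : Type*} [AddCommGroup A] {p : ℕ}
    (hf : Finite (nsmulAddMonoidHom p : A →+ A).ker) (k : ℕ) :
    Finite (nsmulAddMonoidHom (p ^ k) : A →+ A).ker := by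
  induction k with
  | zero =>
    have : Subsingleton (nsmulAddMonoidHom (p ^ 0) : A →+ A).ker := by
      refine ⟨fun x y => Subtype.ext ?_⟩
      obtain ⟨x, h1⟩ := x
      obtain ⟨y, h2⟩ := y
      rw [AddMonoidHom.mem_ker, nsmulAddMonoidHom_apply, pow_zero, one_nsmul] at h1 h2
      change x = y
      rw [h1, h2]
    infer_instance
  | succ k ih =>
    let m : (nsmulAddMonoidHom (p ^ (k + 1)) : A →+ A).ker →+ (nsmulAddMonoidHom p : A →+ A).ker :=
      ((nsmulAddMonoidHom (p ^ k) : A →+ A).comp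
        (nsmulAddMonoidHom (p ^ (k + 1)) : A →+ A).ker.subtype).codRestrict _ (fun x => by
          change p • (p ^ k • (x : A)) = 0
          rw [← mul_nsmul', ← pow_succ']
          exact x.2)
    have h1 : Finite m.ker := by
      refine Finite.of_injective (fun x : m.ker =>
        (⟨((x : (nsmulAddMonoidHom (p ^ (k + 1)) : A →+ A).ker) : A), by
          have := x.2
          rw [AddMonoidHom.mem_ker] at this
          exact congrArg Subtype.val this⟩ : (nsmulAddMonoidHom (p ^ k) : A →+ A).ker)) ?_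
      intro x y hxy
      have h5 : ((x : (nsmulAddMonoidHom (p ^ (k + 1)) : A →+ A).ker) : A) =
        ((y : (nsmulAddMonoidHom (p ^ (k + 1)) : A →+ A).ker) : A) :=
        congrArg (Subtype.val : (nsmulAddMonoidHom (p ^ k) : A →+ A).ker → A) hxy
      exact Subtype.ext (Subtype.ext h5)
    have h2 : Finite ((nsmulAddMonoidHom (p ^ (k + 1)) : A →+ A).ker ⧸ m.ker) :=
      Finite.of_injective _ (QuotientAddGroup.kerLift_injective m)
    exact Finite.of_equiv _ (AddSubgroup.addGroupEquivQuotientProdAddSubgroup (s := m.ker)).symm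

theorem finite_torp (W W' : WeierstrassCurve K) (φ : Pts W →+ Pts W')
    (hφ : Function.Surjective φ) (hk : Finite φ.ker) (hf : Finite (torp p W)) :
    Finite (torp p W') := by
  obtain ⟨k, hk'⟩ := exists_primary (Fact.out : p.Prime) φ hφ hk
  have hfk : Finite (nsmulAddMonoidHom (p ^ k) : Pts W →+ Pts W).ker := finite_ker_pow hf k
  have h : ∀ Q : torp p W', ∃ P : (nsmulAddMonoidHom (p ^ k) : Pts W →+ Pts W).ker,
      φ P = Q := by
    intro Q
    obtain ⟨P, h1, h2⟩ := hk' Q Q.2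
    exact ⟨⟨P, h1⟩, h2⟩
  choose f hf' using h
  refine Finite.of_injective f (fun Q Q' hQ => Subtype.ext ?_)
  rw [← hf' Q, ← hf' Q', hQ]

end

end Pool.Agent.Helper69.FS
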