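import Pool.Agent.Helper58.FS.Inf

/-! D1 of the project of helper58 on MP_b529ab_nt: translation by a point of order `p` does not
fix a point modulo a good prime. -/

set_option autoImplicit false

namespace Pool.Agent.Helper69.FS

open Pool.Agent.Helper58.FS

theorem star {F : Type*} [Field F] (A : ValuationSubring F) {c d x y a b x' y' : F} (hc : c ∈ A)
    (hd : d ∈ A) (hΔ : (4 * c ^ 3 + 27 * d ^ 2)⁻¹ ∈ A) (hΔ0 : 4 * c ^ 3 + 27 * d ^ 2 ≠ 0)
    (h2 : (2 : F)⁻¹ ∈ A) (h20 : (2 : F) ≠ 0)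
    (hU : y ^ 2 = x ^ 3 + c * x + d) (hT : b ^ 2 = a ^ 3 + c * a + d) (ha : a ∈ A) (hb : b ∈ A)
    (hb' : b⁻¹ ∈ A) (hb0 : b ≠ 0) (hxa : x ≠ a) (hx' : x' = ((y - b) / (x - a)) ^ 2 - x - a)
    (hy' : y' = -(y + (y - b) / (x - a) * (x' - x))) : ¬ Cong A x y x' y' := by
  have hsq : ∀ z : F, z ^ 2 ∈ A → z ∈ A := by
    intro z hz
    rw [← ValuationSubring.valuation_le_one_iff] at hz ⊢
    rw [map_pow] at hz
    exact (pow_le_one_iff (by norm_num)).1 hz
  have two : (2 : F) ∈ A := by
    have : (2 : F) = 1 + 1 := by norm_num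
    rw [this]
    exact A.add_mem _ _ A.one_mem A.one_mem
  have hml : ∀ z w : F, z ∈ A → A.valuation w < 1 → A.valuation (z * w) < 1 := by
    intro z w hz hw
    rw [map_mul]
    exact mul_lt_one_of_nonneg_of_lt_one_right ((ValuationSubring.valuation_le_one_iff A z).2 hz)
      zero_le hw
  have hmA : ∀ w : F, A.valuation w < 1 → w ∈ A := fun w hw =>
    (ValuationSubring.valuation_le_one_iff A w).1 hw.le
  -- an element with inverse in `A` is not in the maximal ideal
  have hun : ∀ z : F, z ≠ 0 → z⁻¹ ∈ A → ¬ A.valuation z < 1 := by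
    intro z hz hi hv
    have := hml _ _ hi hv
    rw [inv_mul_cancel₀ hz, map_one] at this
    exact lt_irrefl _ this
  have hxa0 : x - a ≠ 0 := sub_ne_zero.2 hxa
  have hl : ((y - b) / (x - a)) ^ 2 * (x - a) ^ 2 = (y - b) ^ 2 := by
    rw [div_pow, div_mul_cancel₀ _ (pow_ne_zero 2 hxa0)]
  rintro (⟨hx, hx'n⟩ | ⟨hxA, hx'A, hv1, hv2⟩)
  · -- infinite reduction
    apply hx'n
    have hx0 : x ≠ 0 := by
      rintro rfl
      exact hx A.zero_mem
    have htA : x⁻¹ ∈ A := (A.mem_or_inv_mem x).resolve_left hx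
    have htv : A.valuation x⁻¹ < 1 := by
      rw [map_inv₀]
      have h1 : 1 < A.valuation x := by
        by_contra h
        exact hx ((ValuationSubring.valuation_le_one_iff A x).1 (not_lt.1 h))
      exact inv_lt_one_of_one_lt₀ h1
    have hsA : y / x ^ 2 ∈ A := by
      apply hsq
      have : (y / x ^ 2) ^ 2 = x⁻¹ + c * x⁻¹ ^ 3 + d * x⁻¹ ^ 4 := by
        rw [div_pow, hU]
        field_simp
      rw [this]
      exact A.add_mem _ _ (A.add_mem _ _ htA (A.mul_mem _ _ hc (pow_mem htA 3)))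
        (A.mul_mem _ _ hd (pow_mem htA 4))
    have hu1 : A.valuation (a * x⁻¹) < 1 := hml _ _ ha htv
    have hu2 : A.valuation (1 - a * x⁻¹) = 1 := by
      exact (Valuation.map_sub_eq_of_lt_left _ (by rw [map_one]; exact hu1)).trans (map_one _)
    have hu0 : 1 - a * x⁻¹ ≠ 0 := by
      intro h
      rw [h, map_zero] at hu2
      exact zero_ne_one hu2
    have hui : (1 - a * x⁻¹)⁻¹ ∈ A := by
      rw [← ValuationSubring.valuation_le_one_iff, map_inv₀, hu2, inv_one]
    have key : x' = (c * x⁻¹ + d * x⁻¹ ^ 2 - 2 * b * (y / x ^ 2) + b ^ 2 * x⁻¹ ^ 2 + a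
        + a ^ 2 * x⁻¹ - a ^ 3 * x⁻¹ ^ 2) * ((1 - a * x⁻¹)⁻¹) ^ 2 := by
      have h1 : x - a = x * (1 - a * x⁻¹) := by field_simp
      have h2' : x' * (x - a) ^ 2 = c * x + d - 2 * b * y + b ^ 2 + a * x ^ 2 + a ^ 2 * x - a ^ 3 := by
        rw [hx', sub_mul, sub_mul, hl]
        linear_combination hU
      have h3 : x' = (c * x + d - 2 * b * y + b ^ 2 + a * x ^ 2 + a ^ 2 * x - a ^ 3) /
          (x - a) ^ 2 := by
        rw [eq_div_iff (pow_ne_zero 2 hxa0), h2']
      rw [h3, h1]
      field_simp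
    rw [key]
    refine A.mul_mem _ _ ?_ (pow_mem hui 2)
    refine A.toSubring.sub_mem (A.add_mem _ _ (A.add_mem _ _ (A.add_mem _ _ (A.toSubring.sub_mem
      (A.add_mem _ _ ?_ ?_) ?_) ?_) ha) ?_) ?_
    · exact A.mul_mem _ _ hc htA
    · exact A.mul_mem _ _ hd (pow_mem htA 2)
    · exact A.mul_mem _ _ (A.mul_mem _ _ two hb) hsA
    · exact A.mul_mem _ _ (pow_mem hb 2) (pow_mem htA 2)
    · exact A.mul_mem _ _ (pow_mem ha 2) htA
    · exact A.mul_mem _ _ (pow_mem ha 3) (pow_mem htA 2)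
  · -- integral
    obtain ⟨l, hldef⟩ : ∃ l, l = (y - b) / (x - a) := ⟨_, rfl⟩
    rw [← hldef] at hx' hy' hl
    have hyA : y ∈ A := by
      apply hsq
      rw [hU]
      exact A.add_mem _ _ (A.add_mem _ _ (pow_mem hxA 3) (A.mul_mem _ _ hc hxA)) hd
    have hlA : l ∈ A := by
      apply hsq
      have : l ^ 2 = x' + x + a := by rw [hx']; ring
      rw [this]
      exact A.add_mem _ _ (A.add_mem _ _ hx'A hxA) ha
    have hvx : A.valuation (x' - x) < 1 := by rw [Valuation.map_sub_swap]; exact hv1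
    have hvy : A.valuation y < 1 := by
      have h1 : y = 2⁻¹ * ((y - y') - l * (x' - x)) := by
        rw [hy']
        field_simp
        ring
      rw [h1]
      refine hml _ _ h2 ?_
      exact Valuation.map_sub_lt _ hv2 (hml _ _ hlA hvx)
    have hxaA : x - a ∈ A := A.toSubring.sub_mem hxA ha
    have hlx : l * (x - a) = y - b := by rw [hldef, div_mul_cancel₀ _ hxa0]
    -- `x - a` is a unit
    have hxu : ¬ A.valuation (x - a) < 1 := by
      intro h
      have h1 : A.valuation (y - b) < 1 := by rw [← hlx]; exact hml _ _ hlA h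
      have h3 : A.valuation b < 1 := by
        have : b = y - (y - b) := by ring
        rw [this]
        exact Valuation.map_sub_lt _ hvy h1
      exact hun b hb0 hb' h3
    have hxu1 : A.valuation (x - a) = 1 :=
      le_antisymm ((ValuationSubring.valuation_le_one_iff A _).2 hxaA) (not_lt.1 hxu)
    have hf' : A.valuation (3 * x ^ 2 + c) < 1 := by
      have h1 : (x - a) * (3 * x ^ 2 + c) = (2 * (y - b)) * y + (x - a) ^ 2 * (x - x') := by
        have e1 : l ^ 2 = x' + x + a := by rw [hx']; ring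
        rw [e1] at hl
        linear_combination hl - hU + hT
      have h3 : A.valuation ((x - a) * (3 * x ^ 2 + c)) < 1 := by
        rw [h1]
        refine Valuation.map_add_lt _ (hml _ _ ?_ hvy) (hml _ _ (pow_mem hxaA 2) hv1)
        exact A.mul_mem _ _ two (A.toSubring.sub_mem hyA hb)
      rwa [map_mul, hxu1, one_mul] at h3
    have hf : A.valuation (x ^ 3 + c * x + d) < 1 := by
      rw [← hU, pow_two]
      exact hml _ _ hyA hvy
    have three : (3 : F) ∈ A := by
      have : (3 : F) = 2 + 1 := by norm_num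
      rw [this]
      exact A.add_mem _ _ two A.one_mem
    have six : (6 : F) ∈ A := by
      have : (6 : F) = 2 * 3 := by norm_num
      rw [this]
      exact A.mul_mem _ _ two three
    have hg : 6 * c * x - 9 * d ∈ A := by
      have : (9 : F) = 3 * 3 := by norm_num
      rw [this]
      exact A.toSubring.sub_mem (A.mul_mem _ _ (A.mul_mem _ _ six hc) hxA)
        (A.mul_mem _ _ (A.mul_mem _ _ three three) hd)
    have hD : 4 * c ^ 3 + 27 * d ^ 2 = (4 * c ^ 2 + x * (6 * c * x - 9 * d)) * (3 * x ^ 2 + c) -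
        (3 * (6 * c * x - 9 * d)) * (x ^ 3 + c * x + d) := by ring
    apply hun _ hΔ0 hΔ
    rw [hD]
    refine Valuation.map_sub_lt _ (hml _ _ ?_ hf') (hml _ _ (A.mul_mem _ _ three hg) hf)
    refine A.add_mem _ _ (A.mul_mem _ _ ?_ (pow_mem hc 2)) (A.mul_mem _ _ hxA hg)
    have : (4 : F) = 2 * 2 := by norm_num
    rw [this]
    exact A.mul_mem _ _ two two

end Pool.Agent.Helper69.FS
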